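import Pool.Agent.BisRg.Main

/-!
# Regular bipartite graphs of large degree: definitions

MP_29585b_lc. Every bipartite graph is encoded into an exactly regular bipartite graph.
-/

set_option autoImplicit false

namespace Pool.Agent.BisRh

open Finset Pool.Agent.BisTh Pool.Agent.BisRg

/-- Reduction of the general problem to exactly `d`-regular graphs with
`n = (2 * a + b + 3) * d` vertices on each side, `(2 * a + b + 3) ^ c ≤ n`. -/
def Statement4 : Prop :=
  ∀ c : ℕ, 1 ≤ c → ∃ ρ : Bip × ℕ → Bip,
    Nonempty (Turing.TM2ComputableInPolyTime encInput encBip ρ) ∧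
    ∀ (H : Bip) (s : ℕ), (∃ d : ℕ, NearRegular (ρ (H, s)) d 0 ∧
        (ρ (H, s)).a = (2 * H.a + H.b + 3) * d) ∧
      (2 * H.a + H.b + 3) ^ c ≤ (ρ (H, s)).a ∧
      2 ^ s * ((ρ (H, s)).count - 2 ^ (ρ (H, s)).a * (H.count + 2 ^ H.a + 1)) ≤
        2 ^ (ρ (H, s)).a ∧
      2 ^ s * (2 ^ (ρ (H, s)).a * (H.count + 2 ^ H.a + 1) - (ρ (H, s)).count) ≤
        2 ^ (ρ (H, s)).a

/-- Number of independent pairs of a bipartite relation, counted by the left part. -/
def cntR {α β : Type} [Fintype α] [Fintype β] (adj : α → β → Bool) : ℕ :=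
  ∑ S : Finset α, 2 ^ (univ.filter fun b => ∀ a ∈ S, adj a b = false).card

/-- Cells: one for every left vertex, every right vertex, every leaf, and the hub `none`. -/
abbrev Cell (U V : Type) : Type := Option (U ⊕ (V ⊕ U))

/-- Positions in a cell. -/
abbrev Pos (U V : Type) (m : ℕ) : Type := U × (V ⊕ U) × Fin m × Bool

section

variable {U V : Type} [DecidableEq U] [DecidableEq V] {m : ℕ}

/-- The relation with a leaf added at every left vertex. -/
def EE (E : U → V → Bool) (i : U) : V ⊕ U → Bool
  | .inl j => E i j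
  | .inr i' => decide (i' = i)

/-- Active positions. -/
def act (E : U → V → Bool) (p : Pos U V m) : Bool := p.2.2.2 && EE E p.1 p.2.1

/-- The regular graph; both sides are `Cell × Pos`. -/
def adjG (E : U → V → Bool) (y : Pos U V m) (l r : Cell U V × Pos U V m) : Bool :=
  match l.1, r.1 with
  | some (.inl i), some (.inl i') =>
    decide (i = i') && !(decide (r.2 = y) && act E l.2 && decide (l.2.1 = i))
  | some (.inr v), some (.inr v') =>
    decide (v = v') && !(decide (l.2 = r.2) && act E l.2 && decide (l.2.2.1 = v))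
  | none, none => !(decide (l.2 = r.2) && act E l.2)
  | some (.inl i), some (.inr v) =>
    decide (l.2 = r.2) && act E l.2 && decide (l.2.1 = i) && decide (l.2.2.1 = v)
  | some (.inr v), none => decide (l.2 = r.2) && act E l.2 && decide (l.2.2.1 = v)
  | none, some (.inl i) => decide (r.2 = y) && act E l.2 && decide (l.2.1 = i)
  | _, _ => false

variable [Fintype U] [Fintype V]

/-- Free right vertices in the cell `x` for the left part `S`. -/
def fr (E : U → V → Bool) (y : Pos U V m) (S : Cell U V → Finset (Pos U V m)) (x : Cell U V) :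
    ℕ :=
  (univ.filter fun q : Pos U V m => ∀ x', ∀ p ∈ S x', adjG E y (x', p) (x, q) = false).card

/-- Active positions of a left vertex. -/
def aP (E : U → V → Bool) (i : U) : Finset (Pos U V m) :=
  univ.filter fun p => act E p = true ∧ p.1 = i

/-- Active positions of a right vertex. -/
def aQ (E : U → V → Bool) (v : V ⊕ U) : Finset (Pos U V m) :=
  univ.filter fun p => act E p = true ∧ p.2.1 = v

/-- Active positions of an edge. -/
def aPQ (E : U → V → Bool) (i : U) (v : V ⊕ U) : Finset (Pos U V m) :=
  univ.filter fun p => act E p = true ∧ p.1 = i ∧ p.2.1 = v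

/-- The exceptional sets. -/
def sp (E : U → V → Bool) (x : Cell U V) (s : Finset (Pos U V m)) : ℝ :=
  match x with
  | some (.inl i) => if s ⊆ aP E i then 1 else 0
  | _ => if s.card = 1 then 1 else 0

/-- The interaction part of the weight of a cell in `A`. -/
noncomputable def ws (E : U → V → Bool) (A : Finset (Cell U V)) (x : Cell U V)
    (s : Finset (Pos U V m)) : ℝ :=
  match x with
  | some (.inl i) =>
    ∏ v ∈ univ.filter (fun v : V ⊕ U => some (Sum.inr v) ∉ A), (1 / 2 : ℝ) ^ (s ∩ aPQ E i v).card
  | some (.inr v) => if (none : Cell U V) ∈ A then 1 else (1 / 2 : ℝ) ^ (s ∩ aQ E v).card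
  | none => ∏ i ∈ univ.filter (fun i : U => some (Sum.inl i) ∉ A),
      (if (s ∩ aP E i).Nonempty then (1 / 2 : ℝ) else 1)

/-- The weight of a cell. -/
noncomputable def phi (E : U → V → Bool) (A : Finset (Cell U V)) (x : Cell U V)
    (s : Finset (Pos U V m)) : ℝ :=
  if x ∈ A then (if s = ∅ then 0 else (1 + sp E x s) * ws E A x s)
  else (if s = ∅ then 2 ^ Fintype.card (Pos U V m) else 0)

/-- The cells met by `S`. -/
def supp (S : Cell U V → Finset (Pos U V m)) : Finset (Cell U V) :=
  univ.filter fun x => (S x).Nonempty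

/-- Closed sets of cells. -/
def Clo (E : U → V → Bool) (A : Finset (Cell U V)) : Prop :=
  none ∈ A ∧ ∀ (i : U) (v : V ⊕ U), some (.inl i) ∈ A → EE E i v = true → some (.inr v) ∈ A

/-- Number of left vertices outside `A`. -/
def out (A : Finset (Cell U V)) : ℕ := (univ.filter fun i : U => some (Sum.inl i) ∉ A).card

end

/-! ### The concrete graph -/

/-- Codes of cells and positions by numbers. -/
abbrev Code : Type := (ℕ × ℕ × ℕ) × (ℕ × (ℕ × ℕ) × ℕ × Bool)

/-- `EE` for codes. -/
def EEN (R : List (List Bool)) (i : ℕ) (v : ℕ × ℕ) : Bool :=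
  cond (decide (v.1 = 0)) ((R.getD i []).getD v.2 false) (decide (v.2 = i))

/-- `act` for codes. -/
def actN (R : List (List Bool)) (p : ℕ × (ℕ × ℕ) × ℕ × Bool) : Bool :=
  p.2.2.2 && EEN R p.1 p.2.1

/-- The code of the special position. -/
def yN : ℕ × (ℕ × ℕ) × ℕ × Bool := (0, (1, 0), 0, false)

/-- `adjG` for codes. -/
def adjN (R : List (List Bool)) (l r : Code) : Bool :=
  cond (decide (l.1.1 = 0) && decide (r.1.1 = 0))
    (decide (l.1.2.2 = r.1.2.2) &&
      !(decide (r.2 = yN) && actN R l.2 && decide (l.2.1 = l.1.2.2)))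
    (cond (decide (l.1.1 = 1) && decide (r.1.1 = 1))
      (decide (l.1.2 = r.1.2) && !(decide (l.2 = r.2) && actN R l.2 && decide (l.2.2.1 = l.1.2)))
      (cond (decide (l.1.1 = 2) && decide (r.1.1 = 2))
        (!(decide (l.2 = r.2) && actN R l.2))
        (cond (decide (l.1.1 = 0) && decide (r.1.1 = 1))
          (decide (l.2 = r.2) && actN R l.2 && decide (l.2.1 = l.1.2.2) &&
            decide (l.2.2.1 = r.1.2))
          (cond (decide (l.1.1 = 1) && decide (r.1.1 = 2))
            (decide (l.2 = r.2) && actN R l.2 && decide (l.2.2.1 = l.1.2))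
            (cond (decide (l.1.1 = 2) && decide (r.1.1 = 0))
              (decide (r.2 = yN) && actN R l.2 && decide (l.2.1 = r.1.2.2))
              false)))))

/-- Codes of right vertices and leaves. -/
def vL (B : Un) (R : List (List Bool)) : List (ℕ × ℕ) :=
  (List.range B.length).map (fun j => (0, j)) ++ (List.range R.length).map (fun i => (1, i))

/-- Codes of cells. -/
def cellL (B : Un) (R : List (List Bool)) : List (ℕ × ℕ × ℕ) :=
  (List.range R.length).map (fun i => (0, 0, i)) ++
    ((vL B R).map (fun v => (1, v)) ++ [(2, 0, 0)])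

/-- Codes of positions. -/
def posL (M B : Un) (R : List (List Bool)) : List (ℕ × (ℕ × ℕ) × ℕ × Bool) :=
  (List.range R.length).flatMap fun i => (vL B R).flatMap fun v =>
    (List.range M.length).flatMap fun t => [(i, v, t, false), (i, v, t, true)]

/-- All codes. -/
def codeL (M B : Un) (R : List (List Bool)) : List Code :=
  (cellL B R).flatMap fun x => (posL M B R).map fun p => (x, p)

/-- The rows of the regular graph. -/
def rowsR (M B : Un) (R : List (List Bool)) : List (List Bool) :=
  (codeL M B R).map fun l => (codeL M B R).map fun r => adjN R l r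

/-- The regular graph. -/
def gR (M B : Un) (R : List (List Bool)) : Bip := ofRows (codeL M B R).length (rowsR M B R)

/-- The multiplicity: `(40 * (2 * a + b + 4 + s)) ^ c`. -/
def mH (c : ℕ) (T B : Un) (X : List (List Bool)) : Un :=
  pw c (rep 40 (un X ++ un X ++ B ++ T ++ [true, true, true, true]))

/-- The reduction. -/
def rho (c : ℕ) (x : Bip × ℕ) : Bip :=
  gR (mH c (List.replicate x.2 true) (List.replicate x.1.b true) (rowsOf x.1))
    (List.replicate x.1.b true) (cst true (List.replicate x.1.b true) :: rowsOf x.1)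

end Pool.Agent.BisRh
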