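import Pool.Agent.BisRh.Targets

set_option autoImplicit false

/-!
# ABS: the estimate for the abstract graph
-/

namespace Pool.Agent.BisRh

open Finset Pool.Agent.BisTh Pool.Agent.BisRg

namespace ABS_

theorem cntR_le {α β : Type} [Fintype α] [Fintype β] (adj : α → β → Bool) :
    cntR adj ≤ 2 ^ (Fintype.card α + Fintype.card β) := by
  unfold cntR
  refine (Finset.sum_le_sum fun S _ => Nat.pow_le_pow_right (by norm_num)
    (card_le_univ _)).trans (le_of_eq ?_)
  rw [Finset.sum_const, Finset.card_univ, Fintype.card_finset, smul_eq_mul, pow_add]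

/-- From a real estimate to one with truncated subtraction. -/
theorem sub_bound {a b s n : ℕ} (h : (a : ℝ) ≤ b + 2 ^ n * (1 / 2) ^ s) :
    2 ^ s * (a - b) ≤ 2 ^ n := by
  rcases le_total a b with hab | hab
  · rw [Nat.sub_eq_zero_of_le hab, mul_zero]
    exact Nat.zero_le _
  · have h1 : ((2 ^ s * (a - b) : ℕ) : ℝ) ≤ ((2 ^ n : ℕ) : ℝ) := by
      push_cast [Nat.cast_sub hab]
      have h2 : (2 : ℝ) ^ s * (1 / 2) ^ s = 1 := by
        rw [← mul_pow]
        norm_num
      have h3 : (0 : ℝ) < 2 ^ s := by positivity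
      calc (2 : ℝ) ^ s * ((a : ℝ) - b) ≤ 2 ^ s * (2 ^ n * (1 / 2) ^ s) :=
            mul_le_mul_of_nonneg_left (by linarith) h3.le
        _ = 2 ^ n * (2 ^ s * (1 / 2) ^ s) := by ring
        _ = 2 ^ n := by rw [h2, mul_one]
    exact_mod_cast h1

end ABS_

open ABS_ in
/-- ABS. -/
theorem p_ABS (h_UPP : T_UPP) (h_LOW : T_LOW) (h_NUM : T_NUM) (h_CRD : T_CRD) : T_ABS := by
  intro U V _ _ _ _ m E y k s n hU hE hk hm hn
  have hm2 : 2 ≤ m := by omega
  have hd : 2 * m ≤ Fintype.card (Pos U V m) := (h_CRD U V m E).2.2.2.2.1 hU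
  have hz : ((cntR E : ℕ) : ℝ) ≤ 2 ^ k := by
    have h1 : cntR E ≤ 2 ^ k :=
      (cntR_le E).trans (Nat.pow_le_pow_right (by norm_num) (by omega))
    exact_mod_cast h1
  obtain ⟨n1, n2⟩ := h_NUM k s m (Fintype.card (Pos U V m)) (cntR E) (k * (3 / 4) ^ m)
    (by omega) hm hd (Nat.cast_nonneg _) hz rfl
  have u1 := h_UPP U V m E y hm2 hU hE k (k * (3 / 4) ^ m) hk rfl
  have l1 := h_LOW U V m E y k hk
  rw [← hn] at u1 l1
  have hp : (0 : ℝ) < 2 ^ n := by positivity
  constructor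
  · apply sub_bound
    push_cast
    have := u1.trans (mul_le_mul_of_nonneg_left n1 hp.le)
    linarith
  · apply sub_bound
    push_cast
    have h2 := mul_le_mul_of_nonneg_left n2 hp.le
    rw [← mul_assoc] at h2
    have := h2.trans l1
    linarith

end Pool.Agent.BisRh
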