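import Pool.Agent.BisRh.Targets

/-!
# CEQ: invariance of the count under bijections

MP_29585b_lc.
-/

set_option autoImplicit false

namespace Pool.Agent.BisRh

open Finset Pool.Agent.BisTh Pool.Agent.BisRg

namespace CEQ_

theorem cntR_equiv (α β α' β' : Type) [Fintype α] [Fintype β] [Fintype α'] [Fintype β']
    (e : α' ≃ α) (f : β' ≃ β) (adj : α → β → Bool) :
    cntR (fun i j => adj (e i) (f j)) = cntR adj := by
  unfold cntR
  refine Fintype.sum_equiv (Equiv.finsetCongr e) _ _ fun S => ?_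
  congr 1
  refine Finset.card_bij' (fun j _ => f j) (fun b _ => f.symm b) ?_ ?_ ?_ ?_
  · intro j hj
    rw [mem_filter] at hj ⊢
    refine ⟨mem_univ _, fun a ha => ?_⟩
    rw [Equiv.finsetCongr_apply, mem_map] at ha
    obtain ⟨i, hi, rfl⟩ := ha
    exact hj.2 i hi
  · intro b hb
    rw [mem_filter] at hb ⊢
    refine ⟨mem_univ _, fun i hi => ?_⟩
    show adj (e i) (f (f.symm b)) = false
    rw [Equiv.apply_symm_apply]
    refine hb.2 (e i) ?_
    rw [Equiv.finsetCongr_apply, mem_map]
    exact ⟨i, hi, rfl⟩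
  · intro j _
    exact f.symm_apply_apply j
  · intro b _
    exact f.apply_symm_apply b

theorem count_cntR (G : Bip) : G.count = cntR G.adj := by
  rw [count_eq_pairs, pairs, cntR, powerset_univ]
  refine sum_congr rfl fun S _ => ?_
  congr 2
  ext j
  simp

end CEQ_

theorem p_CEQ : T_CEQ :=
  ⟨fun α β α' β' _ _ _ _ e f adj => CEQ_.cntR_equiv α β α' β' e f adj, CEQ_.count_cntR⟩

end Pool.Agent.BisRh
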