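import Pool.Agent.BisRh.Targets

/-!
# BRH, target CLO: the sum over the closed sets of cells
-/

set_option autoImplicit false

namespace Pool.Agent.BisRh

open Finset Pool.Agent.BisTh Pool.Agent.BisRg

namespace CLO_

variable {U V : Type} [Fintype U] [Fintype V] [DecidableEq U] [DecidableEq V]

/-- Membership of a cell in the set given by a triple. -/
def mb (p : Finset U × Finset V × Finset U) : Cell U V → Bool
  | none => true
  | some (.inl i) => decide (i ∈ p.1)
  | some (.inr (.inl j)) => decide (j ∈ p.2.1)
  | some (.inr (.inr i)) => decide (i ∈ p.2.2)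

/-- The set of cells of a triple. -/
def ofT (p : Finset U × Finset V × Finset U) : Finset (Cell U V) :=
  univ.filter fun x => mb p x = true

/-- The triple of a set of cells. -/
def toT (A : Finset (Cell U V)) : Finset U × Finset V × Finset U :=
  (univ.filter fun i => some (Sum.inl i) ∈ A, univ.filter fun j => some (Sum.inr (Sum.inl j)) ∈ A,
    univ.filter fun i => some (Sum.inr (Sum.inr i)) ∈ A)

theorem toT_ofT (p : Finset U × Finset V × Finset U) : toT (ofT p) = p := by
  obtain ⟨S, T, W⟩ := p
  unfold toT ofT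
  refine Prod.ext ?_ (Prod.ext ?_ ?_)
  · ext i
    simp [mb]
  · ext i
    simp [mb]
  · ext i
    simp [mb]

theorem ofT_toT (A : Finset (Cell U V)) (h : none ∈ A) : ofT (toT A) = A := by
  ext x
  unfold toT ofT
  rw [mem_filter]
  rcases x with _ | (i | (j | i))
  · simp [mb, h]
  · simp [mb]
  · simp [mb]
  · simp [mb]

/-- The condition for a triple. -/
def cd (E : U → V → Bool) (p : Finset U × Finset V × Finset U) : Prop :=
  (∀ i ∈ p.1, ∀ j, E i j = true → j ∈ p.2.1) ∧ p.1 ⊆ p.2.2

theorem cd_iff (E : U → V → Bool) (p : Finset U × Finset V × Finset U) :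
    Clo E (ofT p) ↔ cd E p := by
  obtain ⟨S, T, W⟩ := p
  unfold Clo cd ofT
  constructor
  · rintro ⟨-, h⟩
    refine ⟨fun i hi j hj => ?_, fun i hi => ?_⟩
    · have := h i (.inl j) (by simpa [mb] using hi) hj
      simpa [mb] using this
    · have := h i (.inr i) (by simpa [mb] using hi) (by simp [EE])
      simpa [mb] using this
  · rintro ⟨h1, h2⟩
    refine ⟨by simp [mb], ?_⟩
    rintro i (j | i') hi hE
    · have hi' : i ∈ S := by simpa [mb] using hi
      have := h1 i hi' j hE
      simpa [mb] using this
    · have hi' : i ∈ S := by simpa [mb] using hi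
      have he : i' = i := by simpa [EE] using hE
      subst he
      have := h2 hi'
      simpa [mb] using this

theorem out_ofT (p : Finset U × Finset V × Finset U) :
    out (ofT p) = (univ.filter fun i => i ∉ p.1).card := by
  unfold out ofT
  congr 1
  ext i
  simp [mb]

theorem card_sup (S : Finset U) :
    ((univ.filter fun W : Finset U => S ⊆ W).card : ℝ) =
      2 ^ (univ.filter fun i => i ∉ S).card := by
  have h1 : (univ.filter fun W : Finset U => S ⊆ W) = Icc S univ := by
    ext W
    simp
  have h2 : (univ.filter fun i => i ∉ S).card = (univ : Finset U).card - S.card := by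
    have h3 : (univ.filter fun i => i ∉ S) = Sᶜ := by
      ext i
      simp
    rw [h3, card_compl, card_univ]
  rw [h1, card_Icc_finset (subset_univ S), h2]
  push_cast
  rfl

theorem card_nb (E : U → V → Bool) (S : Finset U) :
    ((univ.filter fun T : Finset V => ∀ i ∈ S, ∀ j, E i j = true → j ∈ T).card : ℝ) =
      2 ^ (univ.filter fun b => ∀ a ∈ S, E a b = false).card := by
  have h := card_sup (univ.filter fun j : V => ∃ i ∈ S, E i j = true)
  have h1 : (univ.filter fun T : Finset V => ∀ i ∈ S, ∀ j, E i j = true → j ∈ T) =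
      univ.filter fun T : Finset V => (univ.filter fun j : V => ∃ i ∈ S, E i j = true) ⊆ T := by
    ext T
    simp only [mem_filter, mem_univ, true_and, subset_iff]
    constructor
    · rintro h j ⟨i, hi, hj⟩
      exact h i hi j hj
    · intro h i hi j hj
      exact h ⟨i, hi, hj⟩
  have h2 : (univ.filter fun b => ∀ a ∈ S, E a b = false) =
      univ.filter fun j : V => j ∉ univ.filter fun j : V => ∃ i ∈ S, E i j = true := by
    ext j
    simp
  rw [h1, h2]
  exact h

end CLO_

open CLO_ in
theorem p_CLO : T_CLO := by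
  classical
  intro U V _ _ _ _ E
  have h1 : ∑ A ∈ univ.filter (fun A : Finset (Cell U V) => Clo E A), (1 / 2 : ℝ) ^ out A =
      ∑ p ∈ univ.filter (fun p : Finset U × Finset V × Finset U => cd E p),
        (1 / 2 : ℝ) ^ (univ.filter fun i => i ∉ p.1).card := by
    refine Finset.sum_nbij' toT ofT ?_ ?_ ?_ ?_ ?_
    · intro A hA
      rw [mem_filter] at hA ⊢
      refine ⟨mem_univ _, ?_⟩
      rw [← cd_iff, ofT_toT A hA.2.1]
      exact hA.2
    · intro p hp
      rw [mem_filter] at hp ⊢
      exact ⟨mem_univ _, (cd_iff E p).2 hp.2⟩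
    · intro A hA
      rw [mem_filter] at hA
      exact ofT_toT A hA.2.1
    · intro p _
      exact toT_ofT p
    · intro A hA
      rw [mem_filter] at hA
      rw [← out_ofT, ofT_toT A hA.2.1]
  rw [h1, sum_filter, Fintype.sum_prod_type]
  unfold cntR
  push_cast
  refine sum_congr rfl fun S _ => ?_
  rw [Fintype.sum_prod_type]
  have h2 : ∀ (T : Finset V) (W : Finset U), (if cd E (S, T, W) then
      (1 / 2 : ℝ) ^ (univ.filter fun i => i ∉ (S, T, W).1).card else 0) =
      (if ∀ i ∈ S, ∀ j, E i j = true → j ∈ T then 1 else 0) *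
        ((if S ⊆ W then 1 else 0) * (1 / 2 : ℝ) ^ (univ.filter fun i => i ∉ S).card) := by
    intro T W
    unfold cd
    by_cases h3 : ∀ i ∈ S, ∀ j, E i j = true → j ∈ T
    · by_cases h4 : S ⊆ W
      · simp [h3, h4]
      · simp [h4]
    · simp [h3]
  simp_rw [h2, ← mul_sum, ← sum_mul]
  rw [sum_boole, sum_boole]
  have h5 := card_sup S
  have h6 := card_nb E S
  have h7 : (2 : ℝ) ^ (univ.filter fun i => i ∉ S).card *
      (1 / 2 : ℝ) ^ (univ.filter fun i => i ∉ S).card = 1 := by
    rw [← mul_pow]
    norm_num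
  have h8 : ((univ.filter fun T : Finset V => ∀ i ∈ S, ∀ j, E i j = true → j ∈ T).card : ℝ) *
      (((univ.filter fun W : Finset U => S ⊆ W).card : ℝ) *
        (1 / 2 : ℝ) ^ (univ.filter fun i => i ∉ S).card) =
      2 ^ (univ.filter fun b => ∀ a ∈ S, E a b = false).card := by
    rw [h6, h5, h7, mul_one]
  refine Eq.trans (Eq.trans ?_ h8) ?_
  · congr!
  · congr!

end Pool.Agent.BisRh
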