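import Pool.Agent.BisRh.Targets

set_option autoImplicit false

/-!
# BRH-CNT: the estimate for the concrete graph
-/

namespace Pool.Agent.BisRh

open Finset Pool.Agent.BisTh Pool.Agent.BisRg

namespace CNT_

theorem mH_length (c : ℕ) (T B : Un) (X : List (List Bool)) :
    (mH c T B X).length = (40 * (2 * X.length + B.length + T.length + 4)) ^ c := by
  unfold mH
  rw [pw_length, rep_length]
  simp only [List.length_append, un_length, List.length_cons, List.length_nil]
  congr 1
  ring

end CNT_

open CNT_ in
theorem p_CNT (h_LNK : T_LNK) (h_CEQ : T_CEQ) (h_ABS : T_ABS) (h_UNI : T_UNI) (h_REG : T_REG) :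
    T_CNT := by
  intro c T B X hc hX n hn
  have hMl := mH_length c T B X
  generalize mH c T B X = M at hMl hn ⊢
  obtain ⟨R, hR⟩ : ∃ R : List (List Bool), R = cst true B :: X := ⟨_, rfl⟩
  have huni : cntR (fun (i : Fin R.length) (j : Fin B.length) =>
      (R[i.val]).getD j.val false) = cnt X (List.range B.length) + 2 ^ X.length := by
    subst hR
    exact h_UNI B X hX
  have hRl : R.length = X.length + 1 := by rw [hR, List.length_cons]
  have hR0 : ∀ h : 0 < R.length, R[0]'h = cst true B := by
    subst hR
    exact fun _ => rfl
  have hRr : ∀ u ∈ R, u.length = B.length := by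
    intro u hu
    rw [hR] at hu
    rcases List.mem_cons.1 hu with rfl | hu
    · exact cst_length _ _
    · exact hX u hu
  rw [← hR] at hn ⊢
  have hb : 2 * X.length + B.length + T.length + 4 =
      2 * X.length + B.length + 3 + T.length + 1 := by ring
  rw [hb] at hMl
  have hM1 : 40 * (2 * X.length + B.length + 3 + T.length + 1) ≤ M.length := by
    rw [hMl]
    exact Nat.le_self_pow (by omega) _
  have hM2 : (2 * X.length + B.length + 3) ^ c ≤ M.length := by
    rw [hMl]
    exact Nat.pow_le_pow_left (by omega) _
  have hR1 : 1 ≤ R.length := by omega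
  have hM3 : 1 ≤ M.length := by omega
  obtain ⟨y, e, f, hadj⟩ := h_LNK M B R hRr hR1 hM3
  have hcount : (gR M B R).count = cntR (adjG (fun (i : Fin R.length) (j : Fin B.length) =>
      (R[i.val]).getD j.val false) y) := by
    rw [h_CEQ.2, ← h_CEQ.1 _ _ _ _ e f (adjG (fun (i : Fin R.length) (j : Fin B.length) =>
      (R[i.val]).getD j.val false) y)]
    congr 1
    funext i j
    exact hadj i j
  have ha := (h_REG M B R hRr hR1 hM3).2
  have hcard : Fintype.card (Pos (Fin R.length) (Fin B.length) M.length) =
      2 * (R.length * ((B.length + R.length) * M.length)) := by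
    simp only [Fintype.card_prod, Fintype.card_sum, Fintype.card_fin, Fintype.card_bool]
    ring
  have hk : 2 * R.length + B.length + 1 = 2 * X.length + B.length + 3 := by omega
  have key := h_ABS (Fin R.length) (Fin B.length) M.length
    (fun (i : Fin R.length) (j : Fin B.length) => (R[i.val]).getD j.val false) y
    (2 * X.length + B.length + 3) T.length n ⟨⟨0, hR1⟩⟩
    (fun v => ⟨⟨0, hR1⟩, by
      simp only
      rw [hR0 hR1]
      rw [List.getD_eq_getElem _ _ (by rw [cst_length]; exact v.2)]
      simp [cst]⟩)
    (by simp only [Fintype.card_fin]; omega) hM1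
    (by rw [hn, ha, hcard, hk, mul_comm])
  rw [huni] at key
  rw [hcount]
  refine ⟨key.1, key.2, hM2.trans ?_⟩
  rw [hn, ha]
  have h1 : 1 ≤ B.length + R.length := by omega
  calc M.length = 1 * (1 * (1 * (1 * M.length))) := by ring
    _ ≤ (2 * R.length + B.length + 1) * (2 * (R.length * ((B.length + R.length) * M.length))) := by
        gcongr
        · omega
        · omega

end Pool.Agent.BisRh
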