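import Pool.Agent.BisRh.Targets

/-!
# The list of codes is computed in polynomial time
-/

set_option autoImplicit false

namespace Pool.Agent.BisRh

open Finset Pool.Agent.PT Pool.Agent.BisTh Pool.Agent.BisRg

namespace CPT_

section

variable {γ : Type} [Dat γ] [hC : Fact Core]

theorem vL_pt {B : γ → Un} {R : γ → List (List Bool)} (hB : PolyF B) (hR : PolyF R) :
    PolyF (fun x => vL (B x) (R x)) := by
  unfold vL
  fun_prop

theorem cellL_pt {B : γ → Un} {R : γ → List (List Bool)} (hB : PolyF B) (hR : PolyF R) :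
    PolyF (fun x => cellL (B x) (R x)) := by
  have h := vL_pt hB hR
  unfold cellL
  exact PolyF.append (PolyF.map (f := fun (_ : γ) (i : ℕ) => (0, 0, i)) (by fun_prop)
    hR.range_length) (PolyF.append (PolyF.map (f := fun (_ : γ) (v : ℕ × ℕ) => (1, v))
      (by fun_prop) h) (PolyF.const _))

theorem posL_pt {M B : γ → Un} {R : γ → List (List Bool)} (hM : PolyF M) (hB : PolyF B)
    (hR : PolyF R) : PolyF (fun x => posL (M x) (B x) (R x)) := by
  unfold posL
  refine PolyF.flatMap (f := fun (x : γ) (i : ℕ) => (vL (B x) (R x)).flatMap fun v =>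
    (List.range (M x).length).flatMap fun t => [(i, v, t, false), (i, v, t, true)]) ?_
    hR.range_length
  refine PolyF.flatMap (f := fun (q : γ × ℕ) (v : ℕ × ℕ) =>
    (List.range (M q.1).length).flatMap fun t => [(q.2, v, t, false), (q.2, v, t, true)]) ?_
    (vL_pt (hB.comp (PolyF.fst PolyF.id)) (hR.comp (PolyF.fst PolyF.id)))
  refine PolyF.flatMap (f := fun (q : (γ × ℕ) × ℕ × ℕ) (t : ℕ) =>
    [(q.1.2, q.2, t, false), (q.1.2, q.2, t, true)]) (by fun_prop)
    (PolyF.range_length (hM.comp (PolyF.fst (PolyF.fst PolyF.id))))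

theorem codeL_pt {M B : γ → Un} {R : γ → List (List Bool)} (hM : PolyF M) (hB : PolyF B)
    (hR : PolyF R) : PolyF (fun x => codeL (M x) (B x) (R x)) := by
  unfold codeL
  refine PolyF.flatMap (f := fun (x : γ) (c : ℕ × ℕ × ℕ) =>
    (posL (M x) (B x) (R x)).map fun p => (c, p)) ?_ (cellL_pt hB hR)
  exact PolyF.map (f := fun (q : γ × ℕ × ℕ × ℕ) (p : ℕ × (ℕ × ℕ) × ℕ × Bool) => (q.2, p))
    (by fun_prop) ((posL_pt hM hB hR).comp (PolyF.fst PolyF.id))

theorem mH_pt (c : ℕ) : PolyF (fun x : In => mH c x.1 x.2.1 x.2.2) := by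
  unfold mH
  exact pw_pt c (by fun_prop)

end

end CPT_

open CPT_ in
theorem p_CPT : T_CPT := by
  intro hC c
  have h := mH_pt (hC := hC) c
  have h1 : PolyF (fun x : In => x.2.1) := by fun_prop
  have h2 : PolyF (fun x : In => cst true x.2.1 :: x.2.2) := by fun_prop
  exact codeL_pt h h1 h2

end Pool.Agent.BisRh
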