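import Pool.Agent.BisRh.Targets

/-!
# MP_29585b_lc, BRH: numbers of positions
-/

set_option autoImplicit false

namespace Pool.Agent.BisRh

open Finset Pool.Agent.BisTh Pool.Agent.BisRg

namespace CRD_

variable {U V : Type} [Fintype U] [Fintype V] [DecidableEq U] [DecidableEq V] {m : ℕ}

lemma card_apq (E : U → V → Bool) (i : U) (v : V ⊕ U) (h : EE E i v = true) :
    (aPQ (m := m) E i v).card = m := by
  have e : aPQ (m := m) E i v =
      (univ : Finset (Fin m)).image (fun t => ((i, v, t, true) : Pos U V m)) := by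
    ext p
    obtain ⟨i', v', t, b⟩ := p
    simp only [aPQ, mem_filter, mem_univ, true_and, mem_image, act, Bool.and_eq_true]
    constructor
    · rintro ⟨⟨hb, _⟩, hi, hv⟩
      refine ⟨t, ?_⟩
      subst hi
      subst hv
      subst hb
      rfl
    · rintro ⟨t', ht⟩
      simp only [Prod.mk.injEq] at ht
      obtain ⟨h1, h2, _, h4⟩ := ht
      subst h1
      subst h2
      exact ⟨⟨h4.symm, h⟩, rfl, rfl⟩
  rw [e, card_image_of_injective, card_univ, Fintype.card_fin]
  intro t t' h
  simpa using h

lemma leaf (E : U → V → Bool) (i : U) : EE E i (.inr i) = true := by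
  simp [EE]

lemma apq_ap (E : U → V → Bool) (i : U) (v : V ⊕ U) :
    aPQ (m := m) E i v ⊆ aP E i := by
  intro p hp
  simp only [aPQ, aP, mem_filter, mem_univ, true_and] at hp ⊢
  exact ⟨hp.1, hp.2.1⟩

lemma apq_aq (E : U → V → Bool) (i : U) (v : V ⊕ U) :
    aPQ (m := m) E i v ⊆ aQ E v := by
  intro p hp
  simp only [aPQ, aQ, mem_filter, mem_univ, true_and] at hp ⊢
  exact ⟨hp.1, hp.2.2⟩

lemma card_pos : Fintype.card (Pos U V m) =
    2 * (Fintype.card U * ((Fintype.card V + Fintype.card U) * m)) := by
  simp only [Pos, Fintype.card_prod, Fintype.card_sum, Fintype.card_fin, Fintype.card_bool]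
  ring

lemma ap_add (E : U → V → Bool) (i : U) :
    (aP (m := m) E i).card + m ≤ Fintype.card (Pos U V m) := by
  have h1 : ((univ : Finset (Fin m)).image
      (fun t => ((i, .inr i, t, false) : Pos U V m))).card = m := by
    rw [card_image_of_injective, card_univ, Fintype.card_fin]
    intro t t' h
    simpa using h
  have h2 : Disjoint (aP (m := m) E i) ((univ : Finset (Fin m)).image
      (fun t => ((i, .inr i, t, false) : Pos U V m))) := by
    rw [Finset.disjoint_left]
    intro p hp hq
    simp only [mem_image, mem_univ, true_and] at hq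
    obtain ⟨t, rfl⟩ := hq
    simp [aP, act] at hp
  calc (aP (m := m) E i).card + m
      = (aP (m := m) E i ∪ ((univ : Finset (Fin m)).image
        (fun t => ((i, .inr i, t, false) : Pos U V m)))).card := by
        rw [card_union_of_disjoint h2, h1]
    _ ≤ Fintype.card (Pos U V m) := card_le_univ _

end CRD_

theorem p_CRD : T_CRD := by
  intro U V _ _ _ _ m E
  refine ⟨fun i v h => CRD_.card_apq E i v h, fun i => CRD_.ap_add E i, fun i => ?_,
    fun i v h => ?_, fun h => ?_, CRD_.card_pos⟩
  · calc m = (aPQ (m := m) E i (.inr i)).card := (CRD_.card_apq E i _ (CRD_.leaf E i)).symm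
      _ ≤ _ := card_le_card (CRD_.apq_ap E i _)
  · calc m = (aPQ (m := m) E i v).card := (CRD_.card_apq E i v h).symm
      _ ≤ _ := card_le_card (CRD_.apq_aq E i v)
  · rw [CRD_.card_pos]
    have hU : 1 ≤ Fintype.card U := Fintype.card_pos_iff.mpr h
    have h1 : m ≤ (Fintype.card V + Fintype.card U) * m :=
      Nat.le_mul_of_pos_left m (by omega)
    have h2 : (Fintype.card V + Fintype.card U) * m ≤
        Fintype.card U * ((Fintype.card V + Fintype.card U) * m) :=
      Nat.le_mul_of_pos_left _ hU
    omega

end Pool.Agent.BisRh
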