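import Pool.Agent.BisRh.Targets

/-!
# FAC: exchange of sum and product
-/

set_option autoImplicit false

namespace Pool.Agent.BisRh

open Finset Pool.Agent.BisTh Pool.Agent.BisRg

namespace FAC_

variable {U V : Type} [Fintype U] [Fintype V] [DecidableEq U] [DecidableEq V] {m : ℕ}

theorem sp_nonneg (E : U → V → Bool) (x : Cell U V) (s : Finset (Pos U V m)) :
    0 ≤ sp E x s := by
  unfold sp
  split <;> split_ifs <;> norm_num

theorem ws_nonneg (E : U → V → Bool) (A : Finset (Cell U V)) (x : Cell U V)
    (s : Finset (Pos U V m)) : 0 ≤ ws E A x s := by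
  unfold ws
  split
  · exact Finset.prod_nonneg fun _ _ => by positivity
  · split_ifs <;> positivity
  · refine Finset.prod_nonneg fun _ _ => ?_
    split_ifs <;> norm_num

theorem phi_nonneg (E : U → V → Bool) (A : Finset (Cell U V)) (x : Cell U V)
    (s : Finset (Pos U V m)) : 0 ≤ phi E A x s := by
  have h1 := sp_nonneg E x s
  have h2 := ws_nonneg E A x s
  unfold phi
  split_ifs <;> positivity

end FAC_

open FAC_ in
theorem p_FAC (h_SUM : T_SUM) (h_PTW : T_PTW) : T_FAC := by
  intro U V _ _ _ _ m E y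
  have h1 : (cntR (adjG E y) : ℝ) =
      ∑ S : Cell U V → Finset (Pos U V m), ∏ x, (2 : ℝ) ^ fr E y S x := by
    rw [h_SUM U V m E y]
    push_cast
    rfl
  rw [h1]
  calc ∑ S : Cell U V → Finset (Pos U V m), ∏ x, (2 : ℝ) ^ fr E y S x
      ≤ ∑ S : Cell U V → Finset (Pos U V m), ∏ x, phi E (supp S) x (S x) :=
        Finset.sum_le_sum fun S _ => h_PTW U V m E y S
    _ ≤ ∑ S : Cell U V → Finset (Pos U V m), ∑ A : Finset (Cell U V),
          ∏ x, phi E A x (S x) :=
        Finset.sum_le_sum fun S _ => Finset.single_le_sum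
          (f := fun A : Finset (Cell U V) => ∏ x, phi E A x (S x))
          (fun A _ => Finset.prod_nonneg fun x _ => phi_nonneg E A x (S x))
          (Finset.mem_univ (supp S))
    _ = ∑ A : Finset (Cell U V), ∑ S : Cell U V → Finset (Pos U V m),
          ∏ x, phi E A x (S x) := Finset.sum_comm
    _ = ∑ A : Finset (Cell U V), ∏ x, ∑ s : Finset (Pos U V m), phi E A x s := by
        refine Finset.sum_congr rfl fun A _ => ?_
        rw [Finset.prod_univ_sum, Fintype.piFinset_univ]

end Pool.Agent.BisRh
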