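import Pool.Agent.BisRh.Targets

/-!
# FRA: free right vertices in a cell met by `S`
-/

set_option autoImplicit false

namespace Pool.Agent.BisRh

open Finset Pool.Agent.BisTh Pool.Agent.BisRg

namespace FRA_

theorem aux {α : Type} (F : Finset α) (c : Prop) [Decidable c]
    (h1 : ∀ q ∈ F, ∀ q' ∈ F, q = q') (h2 : F.Nonempty → c) :
    (2 : ℝ) ^ F.card ≤ 1 + (if c then 1 else 0) := by
  rcases F.eq_empty_or_nonempty with h | h
  · rw [h, card_empty, pow_zero]
    split_ifs <;> norm_num
  · have h3 : F.card ≤ 1 := card_le_one.2 h1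
    rw [if_pos (h2 h)]
    calc (2 : ℝ) ^ F.card ≤ 2 ^ 1 := pow_le_pow_right₀ (by norm_num) h3
      _ = 1 + 1 := by norm_num

end FRA_

theorem p_FRA : T_FRA := by
  intro U V _ _ _ _ m E y S x hS
  obtain ⟨p0, hp0⟩ := hS
  unfold fr
  rcases x with _ | i | v
  · have key : ∀ q ∈ univ.filter (fun q : Pos U V m => ∀ x', ∀ p ∈ S x',
        adjG E y (x', p) (none, q) = false), ∀ p ∈ S none, p = q := by
      intro q hq p hp
      have h1 := (mem_filter.1 hq).2 none p hp
      simp only [adjG, Bool.not_eq_false', Bool.and_eq_true, decide_eq_true_eq] at h1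
      exact h1.1
    unfold sp
    apply FRA_.aux
    · intro q hq q' hq'
      rw [← key q hq p0 hp0, ← key q' hq' p0 hp0]
    · rintro ⟨q, hq⟩
      rw [card_eq_one]
      refine ⟨q, ?_⟩
      ext p
      rw [mem_singleton]
      refine ⟨fun hp => key q hq p hp, fun hp => ?_⟩
      rw [hp, ← key q hq p0 hp0]
      exact hp0
  · have key : ∀ q ∈ univ.filter (fun q : Pos U V m => ∀ x', ∀ p ∈ S x',
        adjG E y (x', p) (some (.inl i), q) = false), q = y ∧
        ∀ p ∈ S (some (.inl i)), act E p = true ∧ p.1 = i := by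
      intro q hq
      have h0 : ∀ p ∈ S (some (.inl i)), q = y ∧ act E p = true ∧ p.1 = i := by
        intro p hp
        have h1 := (mem_filter.1 hq).2 (some (.inl i)) p hp
        simp only [adjG, decide_true, Bool.true_and, Bool.not_eq_false', Bool.and_eq_true,
          decide_eq_true_eq] at h1
        exact ⟨h1.1.1, h1.1.2, h1.2⟩
      exact ⟨(h0 p0 hp0).1, fun p hp => (h0 p hp).2⟩
    unfold sp
    apply FRA_.aux
    · intro q hq q' hq'
      rw [(key q hq).1, (key q' hq').1]
    · rintro ⟨q, hq⟩ p hp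
      unfold aP
      rw [mem_filter]
      exact ⟨mem_univ _, (key q hq).2 p hp⟩
  · have key : ∀ q ∈ univ.filter (fun q : Pos U V m => ∀ x', ∀ p ∈ S x',
        adjG E y (x', p) (some (.inr v), q) = false), ∀ p ∈ S (some (.inr v)), p = q := by
      intro q hq p hp
      have h1 := (mem_filter.1 hq).2 (some (.inr v)) p hp
      simp only [adjG, decide_true, Bool.true_and, Bool.not_eq_false', Bool.and_eq_true,
        decide_eq_true_eq] at h1
      exact h1.1.1
    unfold sp
    apply FRA_.aux
    · intro q hq q' hq'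
      rw [← key q hq p0 hp0, ← key q' hq' p0 hp0]
    · rintro ⟨q, hq⟩
      rw [card_eq_one]
      refine ⟨q, ?_⟩
      ext p
      rw [mem_singleton]
      refine ⟨fun hp => key q hq p hp, fun hp => ?_⟩
      rw [hp, ← key q hq p0 hp0]
      exact hp0

end Pool.Agent.BisRh
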