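import Pool.Agent.BisRh.Targets

set_option autoImplicit false

/-! # FRC: free vertices in the cells not met by `S` -/

namespace Pool.Agent.BisRh

open Finset Pool.Agent.BisTh Pool.Agent.BisRg

namespace FRC_

variable {U V : Type} [Fintype U] [Fintype V] [DecidableEq U] [DecidableEq V] {m : ℕ}

/-- Vertices of the cell `x` which are not free. -/
def nf (E : U → V → Bool) (y : Pos U V m) (S : Cell U V → Finset (Pos U V m)) (x : Cell U V) :
    Finset (Pos U V m) :=
  univ.filter fun q : Pos U V m => ¬ ∀ x', ∀ p ∈ S x', adjG E y (x', p) (x, q) = false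

theorem fr_add (E : U → V → Bool) (y : Pos U V m) (S : Cell U V → Finset (Pos U V m))
    (x : Cell U V) : fr E y S x + (nf E y S x).card = Fintype.card (Pos U V m) := by
  unfold fr nf
  rw [card_filter_add_card_filter_not, card_univ]

theorem mem_nf (E : U → V → Bool) (y : Pos U V m) (S : Cell U V → Finset (Pos U V m))
    (x : Cell U V) (q : Pos U V m) :
    q ∈ nf E y S x ↔ ∃ x', ∃ p ∈ S x', adjG E y (x', p) (x, q) = true := by
  unfold nf
  simp only [mem_filter, mem_univ, true_and, not_forall, Bool.not_eq_false, exists_prop]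

theorem nf_inr (E : U → V → Bool) (y : Pos U V m) (S : Cell U V → Finset (Pos U V m))
    (v : V ⊕ U) (hS : S (some (.inr v)) = ∅) :
    nf E y S (some (.inr v)) = univ.biUnion fun i : U => S (some (.inl i)) ∩ aPQ E i v := by
  ext q
  rw [mem_nf, mem_biUnion]
  constructor
  · rintro ⟨x', p, hp, h⟩
    rcases x' with _ | i | v'
    · exact absurd h (by simp [adjG])
    · simp only [adjG, Bool.and_eq_true, decide_eq_true_eq] at h
      obtain ⟨⟨⟨h1, h2⟩, h3⟩, h4⟩ := h
      refine ⟨i, mem_univ _, mem_inter.2 ⟨h1 ▸ hp, ?_⟩⟩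
      unfold aPQ
      rw [← h1]
      exact mem_filter.2 ⟨mem_univ _, h2, h3, h4⟩
    · simp only [adjG, Bool.and_eq_true, decide_eq_true_eq] at h
      rw [h.1, hS] at hp
      exact absurd hp (notMem_empty _)
  · rintro ⟨i, -, hq⟩
    obtain ⟨h1, h2⟩ := mem_inter.1 hq
    obtain ⟨-, h3, h4, h5⟩ := mem_filter.1 h2
    refine ⟨some (.inl i), q, h1, ?_⟩
    simp only [adjG, Bool.and_eq_true, decide_eq_true_eq]
    exact ⟨⟨⟨trivial, h3⟩, h4⟩, h5⟩

theorem nf_none (E : U → V → Bool) (y : Pos U V m) (S : Cell U V → Finset (Pos U V m))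
    (hS : S none = ∅) :
    nf E y S none = univ.biUnion fun v : V ⊕ U => S (some (.inr v)) ∩ aQ E v := by
  ext q
  rw [mem_nf, mem_biUnion]
  constructor
  · rintro ⟨x', p, hp, h⟩
    rcases x' with _ | i | v
    · rw [hS] at hp
      exact absurd hp (notMem_empty _)
    · exact absurd h (by simp [adjG])
    · simp only [adjG, Bool.and_eq_true, decide_eq_true_eq] at h
      obtain ⟨⟨h1, h2⟩, h3⟩ := h
      refine ⟨v, mem_univ _, mem_inter.2 ⟨h1 ▸ hp, ?_⟩⟩
      unfold aQ
      rw [← h1]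
      exact mem_filter.2 ⟨mem_univ _, h2, h3⟩
  · rintro ⟨v, -, hq⟩
    obtain ⟨h1, h2⟩ := mem_inter.1 hq
    obtain ⟨-, h3, h4⟩ := mem_filter.1 h2
    refine ⟨some (.inr v), q, h1, ?_⟩
    simp only [adjG, Bool.and_eq_true, decide_eq_true_eq]
    exact ⟨⟨trivial, h3⟩, h4⟩

theorem nf_inl (E : U → V → Bool) (y : Pos U V m) (S : Cell U V → Finset (Pos U V m))
    (i : U) (hS : S (some (.inl i)) = ∅) :
    nf E y S (some (.inl i)) = if (S none ∩ aP E i).Nonempty then {y} else ∅ := by
  have key : ∀ q, q ∈ nf E y S (some (.inl i)) ↔ q = y ∧ (S none ∩ aP E i).Nonempty := by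
    intro q
    rw [mem_nf]
    constructor
    · rintro ⟨x', p, hp, h⟩
      rcases x' with _ | i' | v
      · simp only [adjG, Bool.and_eq_true, decide_eq_true_eq] at h
        obtain ⟨⟨h1, h2⟩, h3⟩ := h
        exact ⟨h1, p, mem_inter.2 ⟨hp, mem_filter.2 ⟨mem_univ _, h2, h3⟩⟩⟩
      · simp only [adjG, Bool.and_eq_true, decide_eq_true_eq] at h
        rw [h.1, hS] at hp
        exact absurd hp (notMem_empty _)
      · exact absurd h (by simp [adjG])
    · rintro ⟨h1, p, hp⟩
      obtain ⟨h2, h3⟩ := mem_inter.1 hp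
      obtain ⟨-, h4, h5⟩ := mem_filter.1 h3
      refine ⟨none, p, h2, ?_⟩
      simp only [adjG, Bool.and_eq_true, decide_eq_true_eq]
      exact ⟨⟨h1, h4⟩, h5⟩
  ext q
  rw [key]
  split_ifs with h
  · simp [h]
  · simp [h]

end FRC_

open FRC_ in
theorem p_FRC : T_FRC := by
  intro U V _ _ _ _ m E y S
  refine ⟨fun v hS => ?_, fun hS => ?_, fun i hS => ?_⟩
  · rw [← fr_add E y S (some (.inr v)), nf_inr E y S v hS, card_biUnion]
    intro i _ j _ hij
    refine disjoint_left.2 fun q h1 h2 => hij ?_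
    have h3 := (mem_filter.1 (mem_inter.1 h1).2).2.2.1
    have h4 := (mem_filter.1 (mem_inter.1 h2).2).2.2.1
    exact h3.symm.trans h4
  · rw [← fr_add E y S none, nf_none E y S hS, card_biUnion]
    intro v _ w _ hvw
    refine disjoint_left.2 fun q h1 h2 => hvw ?_
    have h3 := (mem_filter.1 (mem_inter.1 h1).2).2.2
    have h4 := (mem_filter.1 (mem_inter.1 h2).2).2.2
    exact h3.symm.trans h4
  · rw [← fr_add E y S (some (.inl i)), nf_inl E y S i hS]
    split_ifs <;> simp

end Pool.Agent.BisRh
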