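import Pool.Agent.BisRh.Targets

/-!
# HLF: sum over all subsets
-/

set_option autoImplicit false

namespace Pool.Agent.BisRh

open Finset Pool.Agent.BisTh Pool.Agent.BisRg

namespace HLF_

theorem pow_eq {P : Type} [DecidableEq P] (Q s : Finset P) :
    (1 / 2 : ℝ) ^ (s ∩ Q).card = ∏ p ∈ s, (if p ∈ Q then (1 / 2 : ℝ) else 1) := by
  rw [Finset.prod_ite, Finset.prod_const_one, mul_one, Finset.prod_const,
    Finset.filter_mem_eq_inter]

theorem fac_eq {P : Type} [Fintype P] [DecidableEq P] (Q : Finset P) :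
    ∏ p : P, (1 + (if p ∈ Q then (1 / 2 : ℝ) else 1)) =
      2 ^ Fintype.card P * (3 / 4) ^ Q.card := by
  have h1 : ∀ p : P, 1 + (if p ∈ Q then (1 / 2 : ℝ) else 1) =
      2 * (if p ∈ Q then (3 / 4 : ℝ) else 1) := by
    intro p
    split_ifs <;> norm_num
  have h2 : (Finset.univ.filter fun p => p ∈ Q) = Q := by
    ext p
    simp
  rw [Finset.prod_congr rfl fun p _ => h1 p, Finset.prod_mul_distrib, Finset.prod_const,
    Finset.prod_ite, Finset.prod_const_one, mul_one, Finset.prod_const, h2, Finset.card_univ]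

end HLF_

theorem p_HLF : T_HLF := by
  intro P _ _ Q
  rw [← HLF_.fac_eq Q, Finset.prod_one_add, Finset.powerset_univ]
  exact Finset.sum_congr rfl fun s _ => HLF_.pow_eq Q s

end Pool.Agent.BisRh
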