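import Pool.Agent.BisRh.Targets

/-!
# BisRh, target LNK: the concrete graph is the abstract one
-/

set_option autoImplicit false

namespace Pool.Agent.BisRh

open Finset Pool.Agent.BisTh Pool.Agent.BisRg

namespace LNK_

variable {r b m : ℕ}

/-- codes of right vertices and leaves -/
def cv : Fin b ⊕ Fin r → ℕ × ℕ
  | .inl j => (0, j.val)
  | .inr i => (1, i.val)

/-- codes of cells -/
def cc : Cell (Fin r) (Fin b) → ℕ × ℕ × ℕ
  | some (.inl i) => (0, 0, i.val)
  | some (.inr v) => (1, cv v)
  | none => (2, 0, 0)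

/-- codes of positions -/
def cp (p : Pos (Fin r) (Fin b) m) : ℕ × (ℕ × ℕ) × ℕ × Bool :=
  (p.1.val, cv p.2.1, p.2.2.1.val, p.2.2.2)

/-- codes of vertices -/
def cd (l : Cell (Fin r) (Fin b) × Pos (Fin r) (Fin b) m) : Code := (cc l.1, cp l.2)

lemma cv_inj : Function.Injective (cv (r := r) (b := b)) := by
  rintro (j | i) (j' | i') h
  · simp only [cv, Prod.mk.injEq, true_and] at h
    rw [Fin.ext h]
  · simp [cv] at h
  · simp [cv] at h
  · simp only [cv, Prod.mk.injEq, true_and] at h
    rw [Fin.ext h]

lemma cp_inj : Function.Injective (cp (r := r) (b := b) (m := m)) := by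
  rintro ⟨i, v, t, e⟩ ⟨i', v', t', e'⟩ h
  simp only [cp, Prod.mk.injEq] at h
  obtain ⟨h1, h2, h3, h4⟩ := h
  rw [Fin.ext h1, cv_inj h2, Fin.ext h3, h4]

/-- all right vertices and leaves -/
def vA (r b : ℕ) : List (Fin b ⊕ Fin r) :=
  (List.finRange b).map Sum.inl ++ (List.finRange r).map Sum.inr

/-- all cells -/
def cellA (r b : ℕ) : List (Cell (Fin r) (Fin b)) :=
  (List.finRange r).map (fun i => some (.inl i)) ++ ((vA r b).map (fun v => some (.inr v)) ++
    [none])

/-- all positions -/
def posA (r b m : ℕ) : List (Pos (Fin r) (Fin b) m) :=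
  List.finRange r ×ˢ (vA r b ×ˢ (List.finRange m ×ˢ [false, true]))

/-- all vertices -/
def codeA (r b m : ℕ) : List (Cell (Fin r) (Fin b) × Pos (Fin r) (Fin b) m) :=
  cellA r b ×ˢ posA r b m

lemma vA_mem (v : Fin b ⊕ Fin r) : v ∈ vA r b := by
  rcases v with j | i <;> simp [vA]

lemma cellA_mem (x : Cell (Fin r) (Fin b)) : x ∈ cellA r b := by
  rcases x with _ | (i | v)
  · simp [cellA]
  · simp [cellA]
  · have := vA_mem v
    simp [cellA, this]

lemma posA_mem (p : Pos (Fin r) (Fin b) m) : p ∈ posA r b m := by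
  obtain ⟨i, v, t, e⟩ := p
  have := vA_mem v
  unfold posA
  simp only [List.mem_product]
  refine ⟨List.mem_finRange _, this, List.mem_finRange _, ?_⟩
  cases e <;> simp

lemma codeA_mem (x : Cell (Fin r) (Fin b) × Pos (Fin r) (Fin b) m) : x ∈ codeA r b m := by
  obtain ⟨x, p⟩ := x
  unfold codeA
  exact List.mem_product.2 ⟨cellA_mem x, posA_mem p⟩

lemma vA_nodup : (vA r b).Nodup := by
  unfold vA
  refine List.Nodup.append ((List.nodup_finRange b).map Sum.inl_injective)
    ((List.nodup_finRange r).map Sum.inr_injective) ?_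
  intro v h1 h2
  simp only [List.mem_map] at h1 h2
  obtain ⟨j, -, rfl⟩ := h1
  obtain ⟨i, -, h⟩ := h2
  cases h

lemma cellA_nodup : (cellA r b).Nodup := by
  unfold cellA
  refine List.Nodup.append ((List.nodup_finRange r).map ?_) (List.Nodup.append
    (vA_nodup.map ?_) (List.nodup_singleton _) ?_) ?_
  · intro i i' h
    simpa using h
  · intro v v' h
    simpa using h
  · intro x h1 h2
    simp only [List.mem_map] at h1
    obtain ⟨v, -, rfl⟩ := h1
    simp at h2
  · intro x h1 h2
    simp only [List.mem_map] at h1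
    obtain ⟨i, -, rfl⟩ := h1
    simp at h2

lemma posA_nodup : (posA r b m).Nodup := by
  unfold posA
  exact (List.nodup_finRange r).product (vA_nodup.product ((List.nodup_finRange m).product
    (by decide)))

lemma codeA_nodup : (codeA r b m).Nodup := cellA_nodup.product posA_nodup

lemma range_eq (n : ℕ) : List.range n = (List.finRange n).map (fun i => i.val) := by
  refine List.ext_getElem (by simp) fun k h1 h2 => ?_
  simp

section

variable (M B : Un) (R : List (List Bool))

lemma vL_eq : vL B R = (vA R.length B.length).map cv := by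
  unfold vL vA
  rw [range_eq B.length, range_eq R.length, List.map_append, List.map_map, List.map_map,
    List.map_map, List.map_map]
  rfl

lemma cellL_eq : cellL B R = (cellA R.length B.length).map cc := by
  unfold cellL cellA
  rw [vL_eq, range_eq R.length, List.map_append, List.map_append, List.map_map, List.map_map,
    List.map_map, List.map_map]
  rfl

lemma posL_eq : posL M B R = (posA R.length B.length M.length).map cp := by
  unfold posL posA
  rw [vL_eq, range_eq, range_eq]
  simp only [SProd.sprod, List.product, List.map_flatMap, List.flatMap_map, List.map_map,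
    Function.comp_def]
  rfl

lemma codeL_eq : codeL M B R = (codeA R.length B.length M.length).map cd := by
  unfold codeL codeA
  rw [cellL_eq, posL_eq]
  simp only [SProd.sprod, List.product, List.map_flatMap, List.flatMap_map, List.map_map,
    Function.comp_def]
  rfl

end

lemma EEN_eq (R : List (List Bool)) (i : Fin R.length) (v : Fin b ⊕ Fin R.length) :
    EEN R i.val (cv v) = EE (fun (i : Fin R.length) (j : Fin b) =>
      (R[i.val]).getD j.val false) i v := by
  rcases v with j | i'
  · simp [EEN, EE, cv]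
  · show decide (i'.val = i.val) = decide (i' = i)
    exact decide_eq_decide.2 Fin.ext_iff.symm

lemma actN_eq (R : List (List Bool)) (p : Pos (Fin R.length) (Fin b) m) :
    actN R (cp p) = act (fun (i : Fin R.length) (j : Fin b) =>
      (R[i.val]).getD j.val false) p := by
  unfold actN act cp
  rw [EEN_eq]

lemma adjN_eq (R : List (List Bool)) (y : Pos (Fin R.length) (Fin b) m) (hy : cp y = yN)
    (l s : Cell (Fin R.length) (Fin b) × Pos (Fin R.length) (Fin b) m) :
    adjN R (cd l) (cd s) = adjG (fun (i : Fin R.length) (j : Fin b) =>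
      (R[i.val]).getD j.val false) y l s := by
  obtain ⟨x, p⟩ := l
  obtain ⟨x', q⟩ := s
  have h1 : (cp p = cp q) ↔ (p = q) := cp_inj.eq_iff
  have h2 : (cp q = yN) ↔ (q = y) := by
    rw [← hy]
    exact cp_inj.eq_iff
  have h3 : ∀ i : Fin R.length, (p.1.val = i.val) ↔ (p.1 = i) := fun i => Fin.ext_iff.symm
  have h4 : ∀ v : Fin b ⊕ Fin R.length, (cv p.2.1 = cv v) ↔ (p.2.1 = v) := fun v =>
    cv_inj.eq_iff
  have e1 : (cp p).1 = p.1.val := rfl
  have e2 : (cp p).2.1 = cv p.2.1 := rfl
  rw [Bool.eq_iff_iff]
  rcases x with _ | (i | v) <;> rcases x' with _ | (i' | v')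
  · simp [adjN, adjG, cd, cc, actN_eq, h1]
  · simp [adjN, adjG, cd, cc, actN_eq, h2, e1, h3]
  · simp [adjN, adjG, cd, cc]
  · simp [adjN, adjG, cd, cc]
  · have h5 : (i.val = i'.val) ↔ (i = i') := Fin.ext_iff.symm
    simp [adjN, adjG, cd, cc, actN_eq, h2, e1, h3, h5]
  · simp [adjN, adjG, cd, cc, actN_eq, h1, e1, e2, h3, h4]
  · simp [adjN, adjG, cd, cc, actN_eq, h1, e2, h4]
  · simp [adjN, adjG, cd, cc]
  · have h5 : (cv v = cv v') ↔ (v = v') := cv_inj.eq_iff
    simp [adjN, adjG, cd, cc, actN_eq, h1, e2, h4, h5]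

end LNK_

open LNK_ in
/-- LNK -/
theorem p_LNK : T_LNK := by
  intro M B R hR h1 h2
  have hyl : cp (r := R.length) (b := B.length) (m := M.length)
      (⟨0, h1⟩, Sum.inr ⟨0, h1⟩, ⟨0, h2⟩, false) = yN := rfl
  have hlen : (codeL M B R).length = (codeA R.length B.length M.length).length := by
    rw [codeL_eq, List.length_map]
  have ha : (gR M B R).a = (codeA R.length B.length M.length).length := by
    rw [← hlen]
    simp [gR, ofRows, rowsR]
  have hb : (gR M B R).b = (codeA R.length B.length M.length).length := by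
    rw [← hlen]
    simp [gR, ofRows]
  refine ⟨(⟨0, h1⟩, Sum.inr ⟨0, h1⟩, ⟨0, h2⟩, false),
    (finCongr ha).trans (codeA_nodup.getEquivOfForallMemList _ codeA_mem),
    (finCongr hb).trans (codeA_nodup.getEquivOfForallMemList _ codeA_mem), fun i j => ?_⟩
  rw [← adjN_eq R _ hyl]
  have hi : i.val < (codeL M B R).length := by
    have := i.isLt
    omega
  have hj : j.val < (codeL M B R).length := by
    have := j.isLt
    omega
  have e1 : cd ((finCongr ha).trans (codeA_nodup.getEquivOfForallMemList _ codeA_mem) i) =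
      (codeL M B R)[i.val] := by
    simp only [codeL_eq, List.getElem_map]
    rfl
  have e2 : cd ((finCongr hb).trans (codeA_nodup.getEquivOfForallMemList _ codeA_mem) j) =
      (codeL M B R)[j.val] := by
    simp only [codeL_eq, List.getElem_map]
    rfl
  rw [e1, e2]
  show ((rowsR M B R)[i.val]).getD j.val false = _
  simp only [rowsR, List.getElem_map]
  rw [List.getD_eq_getElem _ _ (by simpa using hj), List.getElem_map]

end Pool.Agent.BisRh
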