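import Pool.Agent.BisRh.Targets

/-!
# Target LOW: lower bound
-/

set_option autoImplicit false

namespace Pool.Agent.BisRh

open Finset Pool.Agent.BisTh Pool.Agent.BisRg

namespace LOW_

variable {U V : Type} [DecidableEq U] [DecidableEq V] [Fintype U] [Fintype V] {m : ℕ}

lemma card_cell : Fintype.card (Cell U V) = 2 * Fintype.card U + Fintype.card V + 1 := by
  unfold Cell
  rw [Fintype.card_option, Fintype.card_sum, Fintype.card_sum]
  ring

lemma mem_supp (S : Cell U V → Finset (Pos U V m)) (x : Cell U V) :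
    x ∈ supp S ↔ (S x).Nonempty := by
  unfold supp
  rw [mem_filter]
  exact and_iff_right (mem_univ _)

lemma supp_filter (A : Finset (Cell U V)) :
    univ.filter (fun S : Cell U V → Finset (Pos U V m) => supp S = A) =
      Fintype.piFinset (fun x => if x ∈ A then
        univ.filter (fun s : Finset (Pos U V m) => s.Nonempty) else {∅}) := by
  ext S
  rw [mem_filter, Fintype.mem_piFinset]
  constructor
  · rintro ⟨-, h⟩ x
    by_cases hx : x ∈ A
    · rw [if_pos hx, mem_filter]
      exact ⟨mem_univ _, (mem_supp S x).1 (h ▸ hx)⟩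
    · rw [if_neg hx, mem_singleton]
      rw [← not_nonempty_iff_eq_empty]
      intro hne
      exact hx (h ▸ (mem_supp S x).2 hne)
  · intro h
    refine ⟨mem_univ _, ?_⟩
    ext x
    rw [mem_supp]
    have hx := h x
    by_cases hxA : x ∈ A
    · rw [if_pos hxA, mem_filter] at hx
      exact ⟨fun _ => hxA, fun _ => hx.2⟩
    · rw [if_neg hxA, mem_singleton] at hx
      rw [hx]
      exact ⟨fun h => absurd h not_nonempty_empty, fun h => absurd h hxA⟩

lemma card_ne : (univ.filter (fun s : Finset (Pos U V m) => s.Nonempty)).card =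
    2 ^ Fintype.card (Pos U V m) - 1 := by
  have h : univ.filter (fun s : Finset (Pos U V m) => s.Nonempty) = univ.erase ∅ := by
    ext s
    rw [mem_filter, mem_erase, nonempty_iff_ne_empty]
    exact and_comm
  rw [h, card_erase_of_mem (mem_univ _), card_univ, Fintype.card_finset]

lemma card_supp (A : Finset (Cell U V)) :
    (univ.filter (fun S : Cell U V → Finset (Pos U V m) => supp S = A)).card =
      (2 ^ Fintype.card (Pos U V m) - 1) ^ A.card := by
  rw [supp_filter, Fintype.card_piFinset]
  have h : ∀ x : Cell U V, (if x ∈ A then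
      univ.filter (fun s : Finset (Pos U V m) => s.Nonempty) else {∅}).card =
      if x ∈ A then 2 ^ Fintype.card (Pos U V m) - 1 else 1 := by
    intro x
    split_ifs
    · exact card_ne
    · exact card_singleton _
  rw [Finset.prod_congr rfl fun x _ => h x, prod_ite_mem, univ_inter, prod_const]

lemma prod_out (A : Finset (Cell U V)) (c : ℝ) :
    ∏ x : Cell U V, (if x ∈ A then 1 else c) = c ^ (Fintype.card (Cell U V) - A.card) := by
  have h : ∀ x : Cell U V, (if x ∈ A then 1 else c) = if x ∈ Aᶜ then c else 1 := by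
    intro x
    by_cases hx : x ∈ A <;> simp [hx]
  rw [Finset.prod_congr rfl fun x _ => h x, prod_ite_mem, univ_inter, prod_const, card_compl]

/-- the factor for the left vertices outside `A` -/
noncomputable def ee (A : Finset (Cell U V)) (x : Cell U V) : ℝ :=
  match x with
  | some (.inl i) => if some (Sum.inl i) ∈ A then 1 else 1 / 2
  | _ => 1

lemma prod_ee (A : Finset (Cell U V)) : ∏ x : Cell U V, ee A x = (1 / 2 : ℝ) ^ out A := by
  have h1 : ∏ x : Cell U V, ee A x = ee A none *
      ((∏ i : U, ee A (some (Sum.inl i))) * ∏ v : V ⊕ U, ee A (some (Sum.inr v))) := by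
    rw [Fintype.prod_option, Fintype.prod_sum_type]
  rw [h1]
  have h2 : ee A none = 1 := rfl
  have h3 : ∀ v : V ⊕ U, ee A (some (Sum.inr v)) = 1 := fun v => rfl
  have h4 : ∀ i : U, ee A (some (Sum.inl i)) =
      if some (Sum.inl i) ∉ A then (1 / 2 : ℝ) else 1 := by
    intro i
    unfold ee
    simp only
    by_cases h : some (Sum.inl i) ∈ A <;> simp [h]
  rw [h2, Finset.prod_congr rfl fun v _ => h3 v, Finset.prod_congr rfl fun i _ => h4 i,
    prod_const_one, one_mul, mul_one, ← prod_filter, prod_const]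
  rfl

lemma aPQ_empty (E : U → V → Bool) {i : U} {v : V ⊕ U} (h : EE E i v ≠ true) :
    aPQ (m := m) E i v = ∅ := by
  unfold aPQ
  rw [filter_eq_empty_iff]
  rintro p - ⟨h1, h2, h3⟩
  unfold act at h1
  rw [h2, h3, Bool.and_eq_true] at h1
  exact h h1.2

lemma ptw (h_FRC : T_FRC) (E : U → V → Bool) (y : Pos U V m) {A : Finset (Cell U V)}
    (hA : Clo E A) {S : Cell U V → Finset (Pos U V m)} (hS : supp S = A) :
    ((2 : ℝ) ^ Fintype.card (Pos U V m)) ^ (Fintype.card (Cell U V) - A.card) *
      (1 / 2) ^ out A ≤ ∏ x, (2 : ℝ) ^ fr E y S x := by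
  obtain ⟨f1, -, f3⟩ := h_FRC U V m E y S
  have hemp : ∀ x, x ∉ A → S x = ∅ := by
    intro x hx
    rw [← not_nonempty_iff_eq_empty, ← mem_supp, hS]
    exact hx
  rw [← prod_out, ← prod_ee, ← prod_mul_distrib]
  refine prod_le_prod (fun x _ => ?_) (fun x _ => ?_)
  · refine mul_nonneg ?_ ?_
    · split_ifs <;> positivity
    · unfold ee
      split
      · split_ifs <;> norm_num
      · norm_num
  · rcases x with _ | (i | v)
    · rw [if_pos hA.1]
      change 1 * 1 ≤ _
      rw [one_mul]
      exact one_le_pow₀ (by norm_num)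
    · unfold ee
      simp only
      by_cases hx : some (Sum.inl i) ∈ A
      · rw [if_pos hx, if_pos hx, one_mul]
        exact one_le_pow₀ (by norm_num)
      · rw [if_neg hx, if_neg hx]
        have h := f3 i (hemp _ hx)
        have h2 : Fintype.card (Pos U V m) ≤ fr E y S (some (Sum.inl i)) + 1 := by
          rw [← h]
          gcongr
          split_ifs <;> norm_num
        calc (2 : ℝ) ^ Fintype.card (Pos U V m) * (1 / 2)
            ≤ 2 ^ (fr E y S (some (Sum.inl i)) + 1) * (1 / 2) := by
              gcongr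
              norm_num
          _ = 2 ^ fr E y S (some (Sum.inl i)) := by
              rw [pow_succ]
              ring
    · change (if _ then (1 : ℝ) else _) * 1 ≤ _
      rw [mul_one]
      by_cases hx : some (Sum.inr v) ∈ A
      · rw [if_pos hx]
        exact one_le_pow₀ (by norm_num)
      · rw [if_neg hx]
        have h := f1 v (hemp _ hx)
        have h0 : ∑ i : U, (S (some (.inl i)) ∩ aPQ E i v).card = 0 := by
          refine sum_eq_zero fun i _ => ?_
          by_cases hi : some (Sum.inl i) ∈ A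
          · rw [aPQ_empty E fun hE => hx (hA.2 i v hi hE), inter_empty, card_empty]
          · rw [hemp _ hi, empty_inter, card_empty]
        rw [h0, add_zero] at h
        rw [h]

lemma term_clo (h_FRC : T_FRC) (E : U → V → Bool) (y : Pos U V m) {A : Finset (Cell U V)}
    (hA : Clo E A) :
    (2 : ℝ) ^ (Fintype.card (Pos U V m) * Fintype.card (Cell U V)) *
      (1 - Fintype.card (Cell U V) / 2 ^ Fintype.card (Pos U V m)) * (1 / 2) ^ out A ≤
      ∑ S ∈ univ.filter (fun S : Cell U V → Finset (Pos U V m) => supp S = A),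
        ∏ x, (2 : ℝ) ^ fr E y S x := by
  have h1 : ∑ S ∈ univ.filter (fun S : Cell U V → Finset (Pos U V m) => supp S = A),
      ((2 : ℝ) ^ Fintype.card (Pos U V m)) ^ (Fintype.card (Cell U V) - A.card) *
      (1 / 2) ^ out A ≤
      ∑ S ∈ univ.filter (fun S : Cell U V → Finset (Pos U V m) => supp S = A),
        ∏ x, (2 : ℝ) ^ fr E y S x :=
    sum_le_sum fun S hS => ptw h_FRC E y hA (mem_filter.1 hS).2
  refine le_trans ?_ h1
  rw [sum_const, card_supp, nsmul_eq_mul]
  have hD1 : (1 : ℝ) ≤ 2 ^ Fintype.card (Pos U V m) := one_le_pow₀ (by norm_num)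
  have hcast : (((2 ^ Fintype.card (Pos U V m) - 1) ^ A.card : ℕ) : ℝ) =
      ((2 : ℝ) ^ Fintype.card (Pos U V m) - 1) ^ A.card := by
    push_cast [Nat.one_le_two_pow]
    rfl
  rw [hcast, pow_mul]
  generalize (2 : ℝ) ^ Fintype.card (Pos U V m) = D at hD1 ⊢
  have hD0 : 0 < D := by linarith
  have hcard : A.card ≤ Fintype.card (Cell U V) := card_le_univ A
  have h2 : (D - 1) ^ A.card = D ^ A.card * (1 + -(1 / D)) ^ A.card := by
    rw [← mul_pow]
    congr 1
    field_simp
    ring
  have h3 : 1 + (A.card : ℝ) * -(1 / D) ≤ (1 + -(1 / D)) ^ A.card := by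
    refine one_add_mul_le_pow ?_ _
    have : 1 / D ≤ 1 := by
      rw [div_le_one hD0]
      exact hD1
    linarith
  have h4 : 1 - (Fintype.card (Cell U V) : ℝ) / D ≤ 1 + (A.card : ℝ) * -(1 / D) := by
    have h5 : (A.card : ℝ) / D ≤ (Fintype.card (Cell U V) : ℝ) / D := by gcongr
    have h6 : (A.card : ℝ) * -(1 / D) = -((A.card : ℝ) / D) := by ring
    rw [h6]
    linarith
  have h7 : D ^ Fintype.card (Cell U V) = D ^ A.card * D ^ (Fintype.card (Cell U V) - A.card) := by
    rw [← pow_add, Nat.add_sub_cancel' hcard]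
  calc D ^ Fintype.card (Cell U V) * (1 - Fintype.card (Cell U V) / D) * (1 / 2) ^ out A
      ≤ D ^ Fintype.card (Cell U V) * (1 + -(1 / D)) ^ A.card * (1 / 2) ^ out A := by
        gcongr
        exact h4.trans h3
    _ = (D - 1) ^ A.card * (D ^ (Fintype.card (Cell U V) - A.card) * (1 / 2) ^ out A) := by
        rw [h7, h2]
        ring

lemma term_empty (h_FRC : T_FRC) (E : U → V → Bool) (y : Pos U V m) :
    (2 : ℝ) ^ (Fintype.card (Pos U V m) * Fintype.card (Cell U V)) ≤
      ∑ S ∈ univ.filter (fun S : Cell U V → Finset (Pos U V m) => supp S = ∅),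
        ∏ x, (2 : ℝ) ^ fr E y S x := by
  have hmem : (fun _ => ∅ : Cell U V → Finset (Pos U V m)) ∈
      univ.filter (fun S : Cell U V → Finset (Pos U V m) => supp S = ∅) := by
    rw [mem_filter]
    refine ⟨mem_univ _, ?_⟩
    ext x
    rw [mem_supp]
    simp
  refine le_trans ?_ (single_le_sum (fun S _ => by positivity) hmem)
  obtain ⟨f1, f2, f3⟩ := h_FRC U V m E y (fun _ => ∅)
  have h : ∀ x : Cell U V, fr E y (fun _ => ∅) x = Fintype.card (Pos U V m) := by
    intro x
    rcases x with _ | (i | v)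
    · have := f2 rfl
      simpa using this
    · have := f3 i rfl
      simpa using this
    · have := f1 v rfl
      simpa using this
  rw [Finset.prod_congr rfl fun x _ => by rw [h x], prod_const, card_univ, pow_mul]

end LOW_

theorem p_LOW (h_SUM : T_SUM) (h_FRC : T_FRC) (h_CLO : T_CLO) : T_LOW := by
  intro U V _ _ _ _ m E y k hk
  have hsum : (cntR (adjG E y) : ℝ) =
      ∑ S : Cell U V → Finset (Pos U V m), ∏ x, (2 : ℝ) ^ fr E y S x := by
    rw [h_SUM U V m E y]
    push_cast
    rfl
  have hk' : Fintype.card (Cell U V) = k := by rw [LOW_.card_cell, hk]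
  have hclo := h_CLO U V E
  obtain ⟨T, hT⟩ : ∃ T : Finset (Cell U V) → ℝ, ∀ A, T A =
      ∑ S ∈ univ.filter (fun S : Cell U V → Finset (Pos U V m) => supp S = A),
        ∏ x, (2 : ℝ) ^ fr E y S x := ⟨_, fun _ => rfl⟩
  have hE : ∀ A : Finset (Cell U V), 0 ≤ T A := fun A => by
    rw [hT]
    exact sum_nonneg fun S _ => by positivity
  have h0 := LOW_.term_empty h_FRC E y
  have h1 := fun (A : Finset (Cell U V)) (hA : Clo E A) => LOW_.term_clo h_FRC E y hA
  rw [hk', ← hT] at h0
  simp only [hk', ← hT] at h1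
  rw [hsum, ← sum_fiberwise univ supp, ← hclo]
  simp only [← hT]
  set D : ℝ := 2 ^ (Fintype.card (Pos U V m) * k) with hD
  have hD0 : 0 < D := by positivity
  have hk0 : (0 : ℝ) ≤ (k : ℝ) / 2 ^ Fintype.card (Pos U V m) := by positivity
  classical
  calc D * (1 + ∑ A ∈ univ.filter (fun A : Finset (Cell U V) => Clo E A), (1 / 2 : ℝ) ^ out A) *
        (1 - k / 2 ^ Fintype.card (Pos U V m))
      = D * (1 - k / 2 ^ Fintype.card (Pos U V m)) +
        ∑ A ∈ univ.filter (fun A : Finset (Cell U V) => Clo E A),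
          D * (1 - k / 2 ^ Fintype.card (Pos U V m)) * (1 / 2 : ℝ) ^ out A := by
        rw [← mul_sum]
        ring
    _ ≤ T ∅ + ∑ A ∈ univ.filter (fun A : Finset (Cell U V) => Clo E A), T A := by
        refine add_le_add ?_ (sum_le_sum fun A hA => h1 A (mem_filter.1 hA).2)
        refine le_trans ?_ h0
        exact mul_le_of_le_one_right hD0.le (by linarith)
    _ = ∑ A ∈ insert ∅ (univ.filter (fun A : Finset (Cell U V) => Clo E A)), T A := by
        rw [sum_insert]
        intro h
        exact notMem_empty _ (mem_filter.1 h).2.1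
    _ ≤ ∑ A, T A := sum_le_sum_of_subset_of_nonneg (subset_univ _) fun A _ _ => hE A

end Pool.Agent.BisRh
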