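import Pool.Agent.BisRh.Targets

/-!
# Numerical estimates

MP_29585b_lc, project BRH, block NUM.
-/

set_option autoImplicit false

namespace Pool.Agent.BisRh

namespace NUM_

lemma pow_le (D : ℝ) (h0 : 0 ≤ D) (h1 : D ≤ 1) (k : ℕ) :
    (1 + D) ^ k ≤ 1 + (2 ^ k - 1) * D := by
  induction k with
  | zero => simp
  | succ k ih =>
    have h2 : (1 : ℝ) ≤ 2 ^ k := one_le_pow₀ (by norm_num)
    calc (1 + D) ^ (k + 1) = (1 + D) ^ k * (1 + D) := pow_succ _ _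
      _ ≤ (1 + (2 ^ k - 1) * D) * (1 + D) := mul_le_mul_of_nonneg_right ih (by linarith)
      _ ≤ 1 + (2 ^ (k + 1) - 1) * D := by
        rw [pow_succ]
        nlinarith [mul_nonneg (mul_nonneg (sub_nonneg.2 h2) h0) (sub_nonneg.2 h1)]

lemma k_le (k : ℕ) : (k : ℝ) ≤ 2 ^ k := by
  exact_mod_cast (Nat.lt_two_pow_self).le

lemma q_le (k s m : ℕ) (hm : 40 * (k + s + 1) ≤ m) :
    (3 / 4 : ℝ) ^ m ≤ (1 / 2) ^ s * (1 / 2) ^ (3 * k + 3) := by
  calc (3 / 4 : ℝ) ^ m ≤ (3 / 4) ^ (40 * (k + s + 1)) :=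
        pow_le_pow_of_le_one (by norm_num) (by norm_num) hm
    _ = ((3 / 4) ^ 40) ^ (k + s + 1) := pow_mul _ _ _
    _ ≤ ((1 / 2) ^ 16) ^ (k + s + 1) := pow_le_pow_left₀ (by positivity) (by norm_num) _
    _ = (1 / 2) ^ (16 * (k + s + 1)) := (pow_mul _ _ _).symm
    _ ≤ (1 / 2) ^ (s + (3 * k + 3)) :=
        pow_le_pow_of_le_one (by norm_num) (by norm_num) (by omega)
    _ = (1 / 2) ^ s * (1 / 2) ^ (3 * k + 3) := pow_add _ _ _

lemma D_le (k s m : ℕ) (D : ℝ) (hm : 40 * (k + s + 1) ≤ m) (hD : D = k * (3 / 4) ^ m) :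
    8 * 4 ^ k * D ≤ (1 / 2) ^ s := by
  have h1 := q_le k s m hm
  have h2 := k_le k
  have h3 : (1 / 2 : ℝ) ^ (3 * k + 3) = 1 / (8 * 8 ^ k) := by
    rw [pow_add, pow_mul, one_div_pow, one_div_pow, show (2 : ℝ) ^ 3 = 8 by norm_num,
      one_div_mul_one_div, mul_comm]
  have h4 : (4 : ℝ) ^ k * 2 ^ k = 8 ^ k := by
    rw [← mul_pow]
    norm_num
  have h5 : (0 : ℝ) < 8 ^ k := by positivity
  calc 8 * 4 ^ k * D ≤ 8 * 4 ^ k * (2 ^ k * ((1 / 2) ^ s * (1 / 2) ^ (3 * k + 3))) := by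
        rw [hD]
        gcongr
    _ = 8 * (4 ^ k * 2 ^ k) * ((1 / 2) ^ s * (1 / 2) ^ (3 * k + 3)) := by ring
    _ = (1 / 2) ^ s := by
        rw [h3, h4]
        field_simp

end NUM_

open NUM_ in
theorem p_NUM : T_NUM := by
  intro k s m d z D hk hm hd hz0 hz hD
  have h2k : (1 : ℝ) ≤ 2 ^ k := one_le_pow₀ (by norm_num)
  have h44 : (4 : ℝ) ^ k = 2 ^ k * 2 ^ k := by
    rw [← mul_pow]
    norm_num
  have hD0 : 0 ≤ D := by
    rw [hD]
    positivity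
  have hDs := D_le k s m D hm hD
  have hs1 : (1 / 2 : ℝ) ^ s ≤ 1 := pow_le_one₀ (by norm_num) (by norm_num)
  rw [h44] at hDs
  have hkk : (1 : ℝ) ≤ 2 ^ k * 2 ^ k := by nlinarith
  have hD1 : D ≤ 1 := by
    have := mul_le_mul_of_nonneg_right hkk hD0
    nlinarith
  have hp := pow_le D hD0 hD1 k
  constructor
  · have e1 : (1 + D) ^ k * (z + 3 * 2 ^ k * D) ≤ (1 + 2 ^ k * D) * (z + 3 * 2 ^ k * D) := by
      apply mul_le_mul_of_nonneg_right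
      · linarith
      · positivity
    have e2 : (2 : ℝ) ^ k * D * z ≤ 2 ^ k * D * 2 ^ k :=
      mul_le_mul_of_nonneg_left hz (by positivity)
    have e3 : (2 : ℝ) ^ k * D ≤ 2 ^ k * 2 ^ k * D := by
      have := mul_le_mul_of_nonneg_left h2k (by positivity : (0 : ℝ) ≤ 2 ^ k * D)
      linarith
    have e4 : (2 : ℝ) ^ k * 2 ^ k * D * D ≤ 2 ^ k * 2 ^ k * D * 1 :=
      mul_le_mul_of_nonneg_left hD1 (by positivity)
    have e5 : (0 : ℝ) ≤ 2 ^ k * 2 ^ k * D := by positivity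
    nlinarith [e1, e2, e3, e4, e5, hDs]
  · have e1 : (1 + z) * k / 2 ^ d ≤ (1 / 2) ^ s := by
      rw [div_le_iff₀ (by positivity)]
      have e2 : (2 : ℝ) ^ (s + (2 * k + 1)) ≤ 2 ^ d :=
        pow_le_pow_right₀ (by norm_num) (by omega)
      have e3 : (1 / 2 : ℝ) ^ s * 2 ^ (s + (2 * k + 1)) = 2 ^ (2 * k + 1) := by
        rw [pow_add, ← mul_assoc, ← mul_pow]
        norm_num
      have e4 : (1 + z) * k ≤ (2 * 2 ^ k) * 2 ^ k := by
        apply mul_le_mul _ (k_le k) (by positivity) (by positivity)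
        linarith
      calc (1 + z) * k ≤ (2 * 2 ^ k) * 2 ^ k := e4
        _ = 2 ^ (2 * k + 1) := by ring
        _ = (1 / 2 : ℝ) ^ s * 2 ^ (s + (2 * k + 1)) := e3.symm
        _ ≤ (1 / 2) ^ s * 2 ^ d := by gcongr
    have e5 : (1 + z) * (1 - (k : ℝ) / 2 ^ d) = 1 + z - (1 + z) * k / 2 ^ d := by ring
    rw [e5]
    linarith

end Pool.Agent.BisRh
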