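import Pool.Agent.BisRh.Targets

/-!
# Regular bipartite graphs: the pointwise bound (target PTW)
-/

set_option autoImplicit false

namespace Pool.Agent.BisRh

open Finset Pool.Agent.BisTh Pool.Agent.BisRg

namespace PTW_

variable {U V : Type} [Fintype U] [Fintype V] [DecidableEq U] [DecidableEq V] {m : ℕ}

/-- the factor of a cell without the interaction -/
noncomputable def gg (E : U → V → Bool) (S : Cell U V → Finset (Pos U V m)) (x : Cell U V) : ℝ :=
  if (S x).Nonempty then 1 + sp E x (S x) else 2 ^ Fintype.card (Pos U V m)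

/-- the interaction of `inl i` and `inr v` -/
noncomputable def kk (E : U → V → Bool) (S : Cell U V → Finset (Pos U V m)) (i : U) (v : V ⊕ U) :
    ℝ :=
  if (S (some (.inr v))).Nonempty then 1 else (1 / 2 : ℝ) ^ (S (some (.inl i)) ∩ aPQ E i v).card

/-- the interaction of `inr v` and the hub -/
noncomputable def kv (E : U → V → Bool) (S : Cell U V → Finset (Pos U V m)) (v : V ⊕ U) : ℝ :=
  if (S none).Nonempty then 1 else (1 / 2 : ℝ) ^ (S (some (.inr v)) ∩ aQ E v).card

/-- the interaction of the hub and `inl i` -/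
noncomputable def ku (E : U → V → Bool) (S : Cell U V → Finset (Pos U V m)) (i : U) : ℝ :=
  if (S (some (.inl i))).Nonempty then 1 else
    if (S none ∩ aP E i).Nonempty then (1 / 2 : ℝ) else 1

omit [DecidableEq U] [DecidableEq V] in
theorem mem_supp (S : Cell U V → Finset (Pos U V m)) (x : Cell U V) :
    x ∈ supp S ↔ (S x).Nonempty := by
  simp [supp]

theorem two_pow {n k d : ℕ} (h : n + k = d) : (2 : ℝ) ^ n = 2 ^ d * (1 / 2) ^ k := by
  rw [← h, pow_add, mul_assoc, ← mul_pow]
  norm_num

/-! ### the weights -/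

theorem phi_l (E : U → V → Bool) (S : Cell U V → Finset (Pos U V m)) (i : U) :
    phi E (supp S) (some (.inl i)) (S (some (.inl i))) =
      gg E S (some (.inl i)) * ∏ v, kk E S i v := by
  unfold phi gg
  by_cases h : (S (some (.inl i))).Nonempty
  · rw [if_pos ((mem_supp S _).2 h), if_neg h.ne_empty, if_pos h]
    congr 1
    simp only [ws]
    rw [Finset.prod_filter]
    refine Finset.prod_congr rfl fun v _ => ?_
    unfold kk
    by_cases hv : (S (some (.inr v))).Nonempty
    · rw [if_neg (by rw [mem_supp]; exact not_not.2 hv), if_pos hv]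
    · rw [if_pos (by rw [mem_supp]; exact hv), if_neg hv]
  · rw [if_neg (by rw [mem_supp]; exact h), if_pos (not_nonempty_iff_eq_empty.1 h), if_neg h]
    rw [Finset.prod_eq_one, mul_one]
    intro v _
    unfold kk
    rw [not_nonempty_iff_eq_empty.1 h]
    simp

theorem phi_r (E : U → V → Bool) (S : Cell U V → Finset (Pos U V m)) (v : V ⊕ U) :
    phi E (supp S) (some (.inr v)) (S (some (.inr v))) =
      gg E S (some (.inr v)) * kv E S v := by
  unfold phi gg kv
  by_cases h : (S (some (.inr v))).Nonempty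
  · rw [if_pos ((mem_supp S _).2 h), if_neg h.ne_empty, if_pos h]
    congr 1
    simp only [ws, mem_supp]
  · rw [if_neg (by rw [mem_supp]; exact h), if_pos (not_nonempty_iff_eq_empty.1 h), if_neg h]
    rw [not_nonempty_iff_eq_empty.1 h]
    simp

theorem phi_n (E : U → V → Bool) (S : Cell U V → Finset (Pos U V m)) :
    phi E (supp S) none (S none) = gg E S none * ∏ i, ku E S i := by
  unfold phi gg
  by_cases h : (S none).Nonempty
  · rw [if_pos ((mem_supp S _).2 h), if_neg h.ne_empty, if_pos h]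
    congr 1
    simp only [ws]
    rw [Finset.prod_filter]
    refine Finset.prod_congr rfl fun i _ => ?_
    unfold ku
    by_cases hv : (S (some (.inl i))).Nonempty
    · rw [if_neg (by rw [mem_supp]; exact not_not.2 hv), if_pos hv]
    · rw [if_pos (by rw [mem_supp]; exact hv), if_neg hv]
  · rw [if_neg (by rw [mem_supp]; exact h), if_pos (not_nonempty_iff_eq_empty.1 h), if_neg h]
    rw [Finset.prod_eq_one, mul_one]
    intro i _
    unfold ku
    rw [not_nonempty_iff_eq_empty.1 h]
    simp

theorem prod_phi (E : U → V → Bool) (S : Cell U V → Finset (Pos U V m)) :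
    ∏ x, phi E (supp S) x (S x) =
      (gg E S none * ∏ v, kv E S v) * ((∏ i, (gg E S (some (.inl i)) * ku E S i)) *
        ∏ v, (gg E S (some (.inr v)) * ∏ i, kk E S i v)) := by
  rw [Fintype.prod_option, Fintype.prod_sum_type, phi_n,
    Finset.prod_congr rfl (fun i _ => phi_l E S i), Finset.prod_congr rfl (fun v _ => phi_r E S v),
    Finset.prod_mul_distrib, Finset.prod_mul_distrib, Finset.prod_mul_distrib,
    Finset.prod_mul_distrib, Finset.prod_comm (f := fun i v => kk E S i v)]
  ring

/-! ### the bounds -/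

theorem sp_nonneg (E : U → V → Bool) (x : Cell U V) (s : Finset (Pos U V m)) : 0 ≤ sp E x s := by
  unfold sp
  split <;> split_ifs <;> norm_num

theorem gg_nonneg (E : U → V → Bool) (S : Cell U V → Finset (Pos U V m)) (x : Cell U V) :
    0 ≤ gg E S x := by
  unfold gg
  split_ifs
  · linarith [sp_nonneg E x (S x)]
  · positivity

theorem fr_l (h_FRA : T_FRA) (h_FRC : T_FRC) (E : U → V → Bool) (y : Pos U V m)
    (S : Cell U V → Finset (Pos U V m)) (i : U) :
    (2 : ℝ) ^ fr E y S (some (.inl i)) ≤ gg E S (some (.inl i)) * ku E S i := by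
  unfold gg ku
  by_cases h : (S (some (.inl i))).Nonempty
  · rw [if_pos h, if_pos h, mul_one]
    exact h_FRA U V m E y S _ h
  · rw [if_neg h, if_neg h]
    have h1 := (h_FRC U V m E y S).2.2 i (not_nonempty_iff_eq_empty.1 h)
    rw [two_pow h1]
    refine le_of_eq ?_
    congr 1
    split_ifs <;> simp

theorem fr_r (h_FRA : T_FRA) (h_FRC : T_FRC) (E : U → V → Bool) (y : Pos U V m)
    (S : Cell U V → Finset (Pos U V m)) (v : V ⊕ U) :
    (2 : ℝ) ^ fr E y S (some (.inr v)) ≤ gg E S (some (.inr v)) * ∏ i, kk E S i v := by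
  unfold gg kk
  by_cases h : (S (some (.inr v))).Nonempty
  · simp only [if_pos h, Finset.prod_const_one, mul_one]
    exact h_FRA U V m E y S _ h
  · simp only [if_neg h]
    have h1 := (h_FRC U V m E y S).1 v (not_nonempty_iff_eq_empty.1 h)
    rw [two_pow h1, Finset.prod_pow_eq_pow_sum]

theorem fr_n (h_FRA : T_FRA) (h_FRC : T_FRC) (E : U → V → Bool) (y : Pos U V m)
    (S : Cell U V → Finset (Pos U V m)) :
    (2 : ℝ) ^ fr E y S none ≤ gg E S none * ∏ v, kv E S v := by
  unfold gg kv
  by_cases h : (S none).Nonempty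
  · simp only [if_pos h, Finset.prod_const_one, mul_one]
    exact h_FRA U V m E y S _ h
  · simp only [if_neg h]
    have h1 := (h_FRC U V m E y S).2.1 (not_nonempty_iff_eq_empty.1 h)
    rw [two_pow h1, Finset.prod_pow_eq_pow_sum]

end PTW_

open PTW_ in
/-- **PTW** -/
theorem p_PTW (h_FRA : T_FRA) (h_FRC : T_FRC) : T_PTW := by
  intro U V _ _ _ _ m E y S
  rw [prod_phi, Fintype.prod_option, Fintype.prod_sum_type]
  have hn := fr_n h_FRA h_FRC E y S
  have hl := fun i => fr_l h_FRA h_FRC E y S i
  have hr := fun v => fr_r h_FRA h_FRC E y S v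
  have h0 : ∀ x, (0 : ℝ) ≤ 2 ^ fr E y S x := fun x => by positivity
  have hl' : ∏ i, (2 : ℝ) ^ fr E y S (some (.inl i)) ≤
      ∏ i, (gg E S (some (.inl i)) * ku E S i) :=
    Finset.prod_le_prod (fun i _ => h0 _) fun i _ => hl i
  have hr' : ∏ v, (2 : ℝ) ^ fr E y S (some (.inr v)) ≤
      ∏ v, (gg E S (some (.inr v)) * ∏ i, kk E S i v) :=
    Finset.prod_le_prod (fun v _ => h0 _) fun v _ => hr v
  have a1 : (0 : ℝ) ≤ ∏ i, (2 : ℝ) ^ fr E y S (some (.inl i)) :=
    Finset.prod_nonneg fun i _ => h0 _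
  have a2 : (0 : ℝ) ≤ ∏ v, (2 : ℝ) ^ fr E y S (some (.inr v)) :=
    Finset.prod_nonneg fun v _ => h0 _
  exact mul_le_mul hn (mul_le_mul hl' hr' a2 (a1.trans hl')) (mul_nonneg a1 a2)
    ((h0 _).trans hn)

end Pool.Agent.BisRh
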