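import Pool.Agent.BisRh.Targets

/-!
# REG: the concrete graph is regular
-/

set_option autoImplicit false

namespace Pool.Agent.BisRh

open Finset Pool.Agent.BisTh Pool.Agent.BisRg

namespace REG_

theorem card_pos (u v m : ℕ) :
    Fintype.card (Pos (Fin u) (Fin v) m) = 2 * (u * ((v + u) * m)) := by
  simp only [Fintype.card_prod, Fintype.card_sum, Fintype.card_fin, Fintype.card_bool]
  ring

theorem card_cell (u v : ℕ) : Fintype.card (Cell (Fin u) (Fin v)) = 2 * u + v + 1 := by
  simp only [Fintype.card_option, Fintype.card_sum, Fintype.card_fin]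
  ring

end REG_

open REG_ in
/-- The concrete graph is regular. -/
theorem p_REG (h_LNK : T_LNK) (h_RGL : T_RGL) (h_RGR : T_RGR) : T_REG := by
  intro M B R hR hR1 hM1
  obtain ⟨y, e, f, h⟩ := h_LNK M B R hR hR1 hM1
  set E : Fin R.length → Fin B.length → Bool :=
    fun i j => (R[i.val]).getD j.val false with hE
  set d := 2 * (R.length * ((B.length + R.length) * M.length)) with hd
  have hP : Fintype.card (Pos (Fin R.length) (Fin B.length) M.length) = d := card_pos _ _ _
  have ha : (gR M B R).a = (2 * R.length + B.length + 1) * d := by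
    have h1 := Fintype.card_congr e
    rw [Fintype.card_fin, Fintype.card_prod, card_cell, hP] at h1
    exact h1
  have hb : (gR M B R).b = (2 * R.length + B.length + 1) * d := by
    have h1 := Fintype.card_congr f
    rw [Fintype.card_fin, Fintype.card_prod, card_cell, hP] at h1
    exact h1
  have hL : ∀ i, (gR M B R).degL i = d := by
    intro i
    rw [← hP, ← h_RGL (Fin R.length) (Fin B.length) M.length E y (e i)]
    unfold Bip.degL Bip.nbR
    refine Finset.card_bij (fun j _ => f j) ?_ ?_ ?_
    · intro j hj
      simp only [mem_filter, mem_univ, true_and, mem_singleton, exists_eq_left] at hj ⊢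
      rw [← h]
      exact hj
    · intro j _ j' _ hjj'
      exact f.injective hjj'
    · intro r hr
      refine ⟨f.symm r, ?_, f.apply_symm_apply r⟩
      simp only [mem_filter, mem_univ, true_and, mem_singleton, exists_eq_left] at hr ⊢
      rw [h, f.apply_symm_apply]
      exact hr
  have hRr : ∀ j, (gR M B R).degR j = d := by
    intro j
    rw [← hP, ← h_RGR (Fin R.length) (Fin B.length) M.length E y (f j)]
    unfold Bip.degR Bip.nbL
    refine Finset.card_bij (fun i _ => e i) ?_ ?_ ?_
    · intro i hi
      simp only [mem_filter, mem_univ, true_and, mem_singleton, exists_eq_left] at hi ⊢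
      rw [← h]
      exact hi
    · intro i _ i' _ hii'
      exact e.injective hii'
    · intro l hl
      refine ⟨e.symm l, ?_, e.apply_symm_apply l⟩
      simp only [mem_filter, mem_univ, true_and, mem_singleton, exists_eq_left] at hl ⊢
      rw [h, e.apply_symm_apply]
      exact hl
  refine ⟨⟨ha.trans hb.symm, fun i => ?_, fun j => ?_⟩, ha⟩
  · rw [hL i]
    exact ⟨le_rfl, Nat.le_add_right _ _⟩
  · rw [hRr j]
    exact ⟨le_rfl, Nat.le_add_right _ _⟩

end Pool.Agent.BisRh
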