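import Pool.Agent.BisRh.Targets

/-!
# Target RGR of the project BisRh (MP_29585b_lc): degrees of the right vertices
-/

set_option autoImplicit false

namespace Pool.Agent.BisRh

open Finset Pool.Agent.BisTh Pool.Agent.BisRg

namespace RGR_

variable {U V : Type} [Fintype U] [Fintype V] [DecidableEq U] [DecidableEq V] {m : ℕ}

/-- for every position there is exactly one cell -/
theorem one (E : U → V → Bool) (y : Pos U V m) (r : Cell U V × Pos U V m) (p : Pos U V m) :
    (univ.filter fun x : Cell U V => adjG E y (x, p) r = true).card = 1 := by
  rw [Finset.card_eq_one]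
  obtain ⟨c, q⟩ := r
  rcases c with _ | (i' | v')
  · by_cases h : p = q ∧ act E p = true
    · refine ⟨some (.inr p.2.1), ?_⟩
      obtain ⟨rfl, h2⟩ := h
      ext x
      simp only [mem_filter, mem_univ, true_and, mem_singleton]
      rcases x with _ | (i | v)
      · simp [adjG, h2]
      · simp [adjG]
      · simp [adjG, h2, eq_comm]
    · refine ⟨none, ?_⟩
      ext x
      simp only [mem_filter, mem_univ, true_and, mem_singleton]
      rcases x with _ | (i | v)
      · simp only [adjG, Bool.not_eq_true', Bool.and_eq_false_iff, decide_eq_false_iff_not,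
          iff_true]
        by_contra h'
        push Not at h'
        exact h ⟨h'.1, by simpa using h'.2⟩
      · simp [adjG]
      · simp only [adjG, Bool.and_eq_true, decide_eq_true_eq, reduceCtorEq, iff_false]
        exact fun h' => h h'.1
  · by_cases h : q = y ∧ act E p = true ∧ p.1 = i'
    · refine ⟨none, ?_⟩
      obtain ⟨rfl, h2, h3⟩ := h
      ext x
      simp only [mem_filter, mem_univ, true_and, mem_singleton]
      rcases x with _ | (i | v)
      · simp [adjG, h2, h3]
      · simp only [adjG, Bool.and_eq_true, Bool.not_eq_true', Bool.and_eq_false_iff,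
          decide_eq_false_iff_not, decide_eq_true_eq, reduceCtorEq, iff_false]
        rintro ⟨rfl, h4⟩
        simp [h2, h3] at h4
      · simp [adjG]
    · refine ⟨some (.inl i'), ?_⟩
      ext x
      simp only [mem_filter, mem_univ, true_and, mem_singleton]
      rcases x with _ | (i | v)
      · simp only [adjG, Bool.and_eq_true, decide_eq_true_eq, reduceCtorEq, iff_false]
        exact fun h' => h ⟨h'.1.1, h'.1.2, h'.2⟩
      · simp only [adjG, Bool.and_eq_true, Bool.not_eq_true', decide_eq_true_eq,
          Option.some.injEq, Sum.inl.injEq]
        constructor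
        · exact fun h' => h'.1
        · rintro rfl
          refine ⟨rfl, ?_⟩
          by_contra h'
          rw [Bool.not_eq_false, Bool.and_eq_true, Bool.and_eq_true, decide_eq_true_eq,
            decide_eq_true_eq] at h'
          exact h ⟨h'.1.1, h'.1.2, h'.2⟩
      · simp [adjG]
  · by_cases h : p = q ∧ act E p = true ∧ p.2.1 = v'
    · refine ⟨some (.inl p.1), ?_⟩
      obtain ⟨rfl, h2, h3⟩ := h
      ext x
      simp only [mem_filter, mem_univ, true_and, mem_singleton]
      rcases x with _ | (i | v)
      · simp [adjG]
      · simp [adjG, h2, h3, eq_comm]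
      · simp only [adjG, Bool.and_eq_true, Bool.not_eq_true', Bool.and_eq_false_iff,
          decide_eq_false_iff_not, decide_eq_true_eq, reduceCtorEq, iff_false,
          Option.some.injEq]
        rintro ⟨rfl, h4⟩
        simp [h2, h3] at h4
    · refine ⟨some (.inr v'), ?_⟩
      ext x
      simp only [mem_filter, mem_univ, true_and, mem_singleton]
      rcases x with _ | (i | v)
      · simp [adjG]
      · simp only [adjG, Bool.and_eq_true, decide_eq_true_eq, reduceCtorEq, iff_false,
          Option.some.injEq]
        exact fun h' => h ⟨h'.1.1.1, h'.1.1.2, h'.2⟩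
      · simp only [adjG, Bool.and_eq_true, Bool.not_eq_true', decide_eq_true_eq,
          Option.some.injEq, Sum.inr.injEq]
        constructor
        · exact fun h' => h'.1
        · rintro rfl
          refine ⟨rfl, ?_⟩
          by_contra h'
          rw [Bool.not_eq_false, Bool.and_eq_true, Bool.and_eq_true, decide_eq_true_eq,
            decide_eq_true_eq] at h'
          exact h ⟨h'.1.1, h'.1.2, h'.2⟩

end RGR_

open RGR_ in
theorem p_RGR : T_RGR := by
  intro U V _ _ _ _ m E y r
  rw [Finset.card_filter, Fintype.sum_prod_type_right]
  have h : ∀ p : Pos U V m, ∑ x : Cell U V, (if adjG E y (x, p) r = true then 1 else 0) = 1 := by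
    intro p
    rw [← Finset.card_filter]
    exact one E y r p
  rw [Finset.sum_congr rfl fun p _ => h p, Finset.sum_const, smul_eq_mul, mul_one,
    Finset.card_univ]

end Pool.Agent.BisRh
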