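import Pool.Agent.BisRh.Targets

/-!
# The rows of the regular graph are computed in polynomial time
-/

set_option autoImplicit false

namespace Pool.Agent.BisRh

open Finset Pool.Agent.PT Pool.Agent.BisTh Pool.Agent.BisRg

namespace RPT_

section

variable {γ : Type} [Dat γ] [hC : Fact Core]

/-- Positions as tuples of numbers. -/
abbrev PN : Type := ℕ × (ℕ × ℕ) × ℕ × Bool

theorem EEN_pt {R : γ → List (List Bool)} {i : γ → ℕ} {v : γ → ℕ × ℕ} (hR : PolyF R)
    (hi : PolyF i) (hv : PolyF v) : PolyF (fun x => EEN (R x) (i x) (v x)) := by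
  unfold EEN
  exact ((hv.fst).eq (PolyF.const 0)).cond
    (((hR.getD hi (PolyF.const [])).getD hv.snd (PolyF.const false))) ((hv.snd).eq hi)

theorem actN_pt {R : γ → List (List Bool)} {p : γ → PN} (hR : PolyF R) (hp : PolyF p) :
    PolyF (fun x => actN (R x) (p x)) := by
  unfold actN
  exact (hp.snd.snd.snd).and (EEN_pt hR hp.fst hp.snd.fst)

theorem adjN_pt {R : γ → List (List Bool)} {l r : γ → Code} (hR : PolyF R) (hl : PolyF l)
    (hr : PolyF r) : PolyF (fun x => adjN (R x) (l x) (r x)) := by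
  have ha := actN_pt hR hl.snd
  have l0 : PolyF (fun x => decide ((l x).1.1 = 0)) := (hl.fst.fst).eq (PolyF.const 0)
  have l1 : PolyF (fun x => decide ((l x).1.1 = 1)) := (hl.fst.fst).eq (PolyF.const 1)
  have l2 : PolyF (fun x => decide ((l x).1.1 = 2)) := (hl.fst.fst).eq (PolyF.const 2)
  have r0 : PolyF (fun x => decide ((r x).1.1 = 0)) := (hr.fst.fst).eq (PolyF.const 0)
  have r1 : PolyF (fun x => decide ((r x).1.1 = 1)) := (hr.fst.fst).eq (PolyF.const 1)
  have r2 : PolyF (fun x => decide ((r x).1.1 = 2)) := (hr.fst.fst).eq (PolyF.const 2)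
  have e1 : PolyF (fun x => decide ((l x).1.2.2 = (r x).1.2.2)) :=
    (hl.fst.snd.snd).eq hr.fst.snd.snd
  have e2 : PolyF (fun x => decide ((r x).2 = yN)) := (hr.snd).eq (PolyF.const yN)
  have e3 : PolyF (fun x => decide ((l x).2.1 = (l x).1.2.2)) :=
    (hl.snd.fst).eq hl.fst.snd.snd
  have e4 : PolyF (fun x => decide ((l x).1.2 = (r x).1.2)) := (hl.fst.snd).eq hr.fst.snd
  have e5 : PolyF (fun x => decide ((l x).2 = (r x).2)) := (hl.snd).eq hr.snd
  have e6 : PolyF (fun x => decide ((l x).2.2.1 = (l x).1.2)) :=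
    (hl.snd.snd.fst).eq hl.fst.snd
  have e7 : PolyF (fun x => decide ((l x).2.2.1 = (r x).1.2)) :=
    (hl.snd.snd.fst).eq hr.fst.snd
  have e8 : PolyF (fun x => decide ((l x).2.1 = (r x).1.2.2)) :=
    (hl.snd.fst).eq hr.fst.snd.snd
  unfold adjN
  exact (l0.and r0).cond (e1.and ((e2.and ha).and e3).not)
    ((l1.and r1).cond (e4.and ((e5.and ha).and e6).not)
      ((l2.and r2).cond ((e5.and ha).not)
        ((l0.and r1).cond (((e5.and ha).and e3).and e7)
          ((l1.and r2).cond ((e5.and ha).and e6)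
            ((l2.and r0).cond ((e2.and ha).and e8) (PolyF.const false))))))

theorem vL_pt {B : γ → Un} {R : γ → List (List Bool)} (hB : PolyF B) (hR : PolyF R) :
    PolyF (fun x => vL (B x) (R x)) := by
  unfold vL
  exact (PolyF.map (f := fun (_ : γ) (j : ℕ) => ((0 : ℕ), j)) (by fun_prop)
    hB.range_length).append
    (PolyF.map (f := fun (_ : γ) (i : ℕ) => ((1 : ℕ), i)) (by fun_prop) hR.range_length)

theorem cellL_pt {B : γ → Un} {R : γ → List (List Bool)} (hB : PolyF B) (hR : PolyF R) :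
    PolyF (fun x => cellL (B x) (R x)) := by
  unfold cellL
  exact (PolyF.map (f := fun (_ : γ) (i : ℕ) => ((0 : ℕ), (0 : ℕ), i)) (by fun_prop)
    hR.range_length).append
    ((PolyF.map (f := fun (_ : γ) (v : ℕ × ℕ) => ((1 : ℕ), v)) (by fun_prop)
      (vL_pt hB hR)).append (PolyF.const _))

theorem posL_pt {M B : γ → Un} {R : γ → List (List Bool)} (hM : PolyF M) (hB : PolyF B)
    (hR : PolyF R) : PolyF (fun x => posL (M x) (B x) (R x)) := by
  have hv : PolyF (fun x => vL (B x) (R x)) := vL_pt hB hR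
  have h3 : PolyF (fun p : (γ × ℕ) × (ℕ × ℕ) => (List.range (M p.1.1).length).flatMap fun t =>
      [(p.1.2, p.2, t, false), (p.1.2, p.2, t, true)]) :=
    PolyF.flatMap (f := fun (p : (γ × ℕ) × (ℕ × ℕ)) (t : ℕ) =>
      [(p.1.2, p.2, t, false), (p.1.2, p.2, t, true)]) (by fun_prop)
      (PolyF.range_length (hM.comp (g := fun p : (γ × ℕ) × (ℕ × ℕ) => p.1.1) (by fun_prop)))
  have h2 : PolyF (fun p : γ × ℕ => (vL (B p.1) (R p.1)).flatMap fun v =>
      (List.range (M p.1).length).flatMap fun t => [(p.2, v, t, false), (p.2, v, t, true)]) :=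
    PolyF.flatMap (f := fun (p : γ × ℕ) (v : ℕ × ℕ) => (List.range (M p.1).length).flatMap
      fun t => [(p.2, v, t, false), (p.2, v, t, true)]) h3
      (hv.comp (g := fun p : γ × ℕ => p.1) (by fun_prop))
  unfold posL
  exact PolyF.flatMap (f := fun (x : γ) (i : ℕ) => (vL (B x) (R x)).flatMap fun v =>
      (List.range (M x).length).flatMap fun t => [(i, v, t, false), (i, v, t, true)]) h2
      hR.range_length

theorem codeL_pt {M B : γ → Un} {R : γ → List (List Bool)} (hM : PolyF M) (hB : PolyF B)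
    (hR : PolyF R) : PolyF (fun x => codeL (M x) (B x) (R x)) := by
  have h2 : PolyF (fun p : γ × (ℕ × ℕ × ℕ) => (posL (M p.1) (B p.1) (R p.1)).map
      fun q => (p.2, q)) :=
    PolyF.map (f := fun (p : γ × (ℕ × ℕ × ℕ)) (q : PN) => (p.2, q)) (by fun_prop)
      ((posL_pt hM hB hR).comp (g := fun p : γ × (ℕ × ℕ × ℕ) => p.1) (by fun_prop))
  unfold codeL
  exact PolyF.flatMap (f := fun (x : γ) (c : ℕ × ℕ × ℕ) => (posL (M x) (B x) (R x)).map
      fun q => (c, q)) h2 (cellL_pt hB hR)

theorem rowsR_pt {M B : γ → Un} {R : γ → List (List Bool)} (hM : PolyF M) (hB : PolyF B)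
    (hR : PolyF R) : PolyF (fun x => rowsR (M x) (B x) (R x)) := by
  have hc := codeL_pt hM hB hR
  have h3 : PolyF (fun p : (γ × Code) × Code => adjN (R p.1.1) p.1.2 p.2) :=
    adjN_pt (hR.comp (g := fun p : (γ × Code) × Code => p.1.1) (by fun_prop)) (by fun_prop)
      (by fun_prop)
  have h2 : PolyF (fun p : γ × Code => (codeL (M p.1) (B p.1) (R p.1)).map
      fun r => adjN (R p.1) p.2 r) :=
    PolyF.map (f := fun (p : γ × Code) (r : Code) => adjN (R p.1) p.2 r) h3
      (hc.comp (g := fun p : γ × Code => p.1) (by fun_prop))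
  unfold rowsR
  exact PolyF.map (f := fun (x : γ) (l : Code) => (codeL (M x) (B x) (R x)).map
      fun r => adjN (R x) l r) h2 hc

theorem mH_pt (c : ℕ) {T B : γ → Un} {X : γ → List (List Bool)} (hT : PolyF T) (hB : PolyF B)
    (hX : PolyF X) : PolyF (fun x => mH c (T x) (B x) (X x)) := by
  unfold mH
  have h : PolyF (fun x => un (X x) ++ un (X x) ++ B x ++ T x ++ [true, true, true, true]) := by
    fun_prop
  exact pw_pt c (rep_pt 40 h)

end

end RPT_

theorem p_RPT : T_RPT := by
  intro hC c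
  exact RPT_.rowsR_pt (RPT_.mH_pt c (by fun_prop) (by fun_prop) (by fun_prop)) (by fun_prop)
    (PolyF.cons (cst_pt true (by fun_prop)) (by fun_prop))

end Pool.Agent.BisRh
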