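import Pool.Agent.BisRh.Targets

/-!
# BRH-SMU: sum of the weights, left cells
-/

set_option autoImplicit false

namespace Pool.Agent.BisRh

open Finset Pool.Agent.BisTh Pool.Agent.BisRg

namespace SMU_

variable {U V : Type} [Fintype U] [Fintype V] [DecidableEq U] [DecidableEq V] {m : ℕ}

theorem sp_nonneg (E : U → V → Bool) (i : U) (s : Finset (Pos U V m)) :
    0 ≤ sp E (some (.inl i)) s := by
  simp only [sp]
  split_ifs <;> norm_num

theorem ws_nonneg (E : U → V → Bool) (A : Finset (Cell U V)) (i : U)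
    (s : Finset (Pos U V m)) : 0 ≤ ws E A (some (.inl i)) s := by
  simp only [ws]
  exact prod_nonneg fun v _ => by positivity

theorem ws_le_one (E : U → V → Bool) (A : Finset (Cell U V)) (i : U)
    (s : Finset (Pos U V m)) : ws E A (some (.inl i)) s ≤ 1 := by
  simp only [ws]
  exact prod_le_one (fun v _ => by positivity)
    (fun v _ => pow_le_one₀ (by norm_num) (by norm_num))

theorem ws_le (E : U → V → Bool) (A : Finset (Cell U V)) (i : U)
    (s : Finset (Pos U V m)) (v : V ⊕ U) (hv : some (Sum.inr v) ∉ A) :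
    ws E A (some (.inl i)) s ≤ (1 / 2 : ℝ) ^ (s ∩ aPQ E i v).card := by
  simp only [ws]
  rw [← mul_prod_erase _ _ (mem_filter.2 ⟨mem_univ v, hv⟩)]
  refine mul_le_of_le_one_right (by positivity) ?_
  exact prod_le_one (fun v _ => by positivity)
    (fun v _ => pow_le_one₀ (by norm_num) (by norm_num))

theorem phi_le (E : U → V → Bool) (A : Finset (Cell U V)) (i : U)
    (hA : some (Sum.inl i) ∈ A) (s : Finset (Pos U V m)) :
    phi E A (some (.inl i)) s ≤ ws E A (some (.inl i)) s + sp E (some (.inl i)) s := by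
  have h1 := ws_nonneg E A i s
  have h2 := ws_le_one E A i s
  have h3 := sp_nonneg E i s
  unfold phi
  rw [if_pos hA]
  split_ifs
  · exact add_nonneg h1 h3
  · nlinarith

theorem sum_sp (E : U → V → Bool) (i : U) :
    ∑ s : Finset (Pos U V m), sp E (some (.inl i)) s = 2 ^ (aP (m := m) E i).card := by
  simp only [sp]
  rw [sum_boole]
  have h : (univ.filter fun s : Finset (Pos U V m) => s ⊆ aP E i) = (aP E i).powerset := by
    ext s
    simp
  rw [h, card_powerset]
  push_cast
  rfl

end SMU_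

open SMU_ in
theorem p_SMU (h_CRD : T_CRD) (h_HLF : T_HLF) : T_SMU := by
  intro U V _ _ _ _ m E A i hA
  obtain ⟨hPQ, hP, -, -, -, -⟩ := h_CRD U V m E
  have h1 : ∑ s : Finset (Pos U V m), sp E (some (.inl i)) s ≤
      2 ^ Fintype.card (Pos U V m) * (1 / 2) ^ m := by
    rw [sum_sp]
    have h2 : (2 : ℝ) ^ (aP (m := m) E i).card * 2 ^ m ≤ 2 ^ Fintype.card (Pos U V m) := by
      rw [← pow_add]
      exact pow_le_pow_right₀ (by norm_num) (hP i)
    have h3 : (2 : ℝ) ^ m * (1 / 2) ^ m = 1 := by
      rw [← mul_pow]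
      norm_num
    calc (2 : ℝ) ^ (aP (m := m) E i).card
        = 2 ^ (aP (m := m) E i).card * 2 ^ m * (1 / 2) ^ m := by rw [mul_assoc, h3, mul_one]
      _ ≤ 2 ^ Fintype.card (Pos U V m) * (1 / 2) ^ m :=
        mul_le_mul_of_nonneg_right h2 (by positivity)
  have h4 : ∑ s : Finset (Pos U V m), phi E A (some (.inl i)) s ≤
      ∑ s : Finset (Pos U V m), ws E A (some (.inl i)) s +
        2 ^ Fintype.card (Pos U V m) * (1 / 2) ^ m := by
    refine le_trans (sum_le_sum fun s _ => phi_le E A i hA s) ?_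
    rw [sum_add_distrib]
    exact add_le_add le_rfl h1
  refine ⟨?_, fun v hv hvA => ?_⟩
  · have h5 : ∑ s : Finset (Pos U V m), ws E A (some (.inl i)) s ≤
        2 ^ Fintype.card (Pos U V m) := by
      refine le_trans (sum_le_sum fun s _ => ws_le_one E A i s) ?_
      rw [sum_const, card_univ, Fintype.card_finset, nsmul_eq_mul, mul_one]
      push_cast
      exact le_rfl
    rw [mul_add, mul_one]
    exact h4.trans (add_le_add h5 le_rfl)
  · have h5 : ∑ s : Finset (Pos U V m), ws E A (some (.inl i)) s ≤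
        2 ^ Fintype.card (Pos U V m) * (3 / 4) ^ m := by
      refine le_trans (sum_le_sum fun s _ => ws_le E A i s v hvA) ?_
      rw [h_HLF, hPQ i v hv]
    rw [mul_add]
    exact h4.trans (add_le_add h5 le_rfl)

end Pool.Agent.BisRh
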