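import Pool.Agent.BisRh.Targets

/-!
# BisRh: the target SMV, the cells of the right vertices
-/

set_option autoImplicit false

namespace Pool.Agent.BisRh

open Finset Pool.Agent.BisTh Pool.Agent.BisRg

namespace SMV_

theorem sq_le (d : ℕ) (hd : 4 ≤ d) : d ^ 2 ≤ 2 ^ d := by
  induction d, hd using Nat.le_induction with
  | base => norm_num
  | succ n hn ih =>
    rw [pow_succ 2 n]
    nlinarith

theorem mul_le (d m : ℕ) (hm : 2 ≤ m) (hd : 2 * m ≤ d) : d * 2 ^ m ≤ 2 ^ d := by
  have h1 := sq_le d (by omega)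
  have h2 : (2 : ℕ) ^ (2 * m) ≤ 2 ^ d := Nat.pow_le_pow_right (by norm_num) hd
  have h3 : (d * 2 ^ m) ^ 2 ≤ (2 ^ d) ^ 2 := by
    calc (d * 2 ^ m) ^ 2 = d ^ 2 * 2 ^ (2 * m) := by
          rw [mul_pow, ← pow_mul, mul_comm m 2]
      _ ≤ 2 ^ d * 2 ^ d := Nat.mul_le_mul h1 h2
      _ = (2 ^ d) ^ 2 := by ring
  exact (Nat.pow_le_pow_iff_left (by norm_num)).1 h3

theorem num (d m : ℕ) (hm : 2 ≤ m) (hd : 2 * m ≤ d) :
    (d : ℝ) ≤ 2 ^ d * (1 / 2) ^ m := by
  have h1 : ((d * 2 ^ m : ℕ) : ℝ) ≤ ((2 ^ d : ℕ) : ℝ) := by exact_mod_cast mul_le d m hm hd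
  push_cast at h1
  have h2 : (0 : ℝ) < 2 ^ m := by positivity
  rw [div_pow, one_pow, mul_one_div, le_div_iff₀ h2]
  exact h1

theorem sum_one (P : Type) [Fintype P] [DecidableEq P] :
    ∑ s : Finset P, (if s.card = 1 then (1 : ℝ) else 0) = Fintype.card P := by
  rw [Finset.sum_boole, Finset.univ_filter_card_eq, Finset.card_powersetCard, Finset.card_univ,
    Nat.choose_one_right]

end SMV_

open SMV_ in
/-- **SMV** -/
theorem p_SMV (h_CRD : T_CRD) (h_HLF : T_HLF) : T_SMV := by
  intro U V _ _ _ _ m E A v hm hU hv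
  obtain ⟨-, -, -, hQ, hd, -⟩ := h_CRD U V m E
  have hd2 := num _ m hm (hd hU)
  set w : Finset (Pos U V m) → ℝ := fun s => ws E A (some (.inr v)) s with hw
  have hws : ∀ s, w s = if (none : Cell U V) ∈ A then 1 else (1 / 2 : ℝ) ^ (s ∩ aQ E v).card :=
    fun s => rfl
  have hw0 : ∀ s, 0 ≤ w s := by
    intro s
    rw [hws]
    split_ifs
    · exact zero_le_one
    · positivity
  have hw1 : ∀ s, w s ≤ 1 := by
    intro s
    rw [hws]
    split_ifs
    · exact le_rfl
    · exact pow_le_one₀ (by norm_num) (by norm_num)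
  have hphi : ∀ s : Finset (Pos U V m), phi E A (some (.inr v)) s ≤
      w s + (if s.card = 1 then (1 : ℝ) else 0) := by
    intro s
    have e1 : sp E (some (.inr v)) s = if s.card = 1 then (1 : ℝ) else 0 := rfl
    unfold phi
    rw [if_pos hv, e1]
    have k0 := hw0 s
    have k1 := hw1 s
    have k2 : ws E A (some (.inr v)) s = w s := rfl
    rw [k2]
    split_ifs <;> linarith
  have hsum : ∑ s : Finset (Pos U V m), phi E A (some (.inr v)) s ≤
      (∑ s, w s) + 2 ^ Fintype.card (Pos U V m) * (1 / 2) ^ m := by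
    calc ∑ s : Finset (Pos U V m), phi E A (some (.inr v)) s
        ≤ ∑ s : Finset (Pos U V m), (w s + (if s.card = 1 then (1 : ℝ) else 0)) :=
          Finset.sum_le_sum fun s _ => hphi s
      _ = (∑ s, w s) + Fintype.card (Pos U V m) := by
          rw [Finset.sum_add_distrib, sum_one]
      _ ≤ _ := by linarith
  constructor
  · have h1 : ∑ s, w s ≤ 2 ^ Fintype.card (Pos U V m) := by
      calc ∑ s, w s ≤ ∑ _s : Finset (Pos U V m), (1 : ℝ) :=
            Finset.sum_le_sum fun s _ => hw1 s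
        _ = 2 ^ Fintype.card (Pos U V m) := by
            rw [Finset.sum_const, Finset.card_univ, Fintype.card_finset, nsmul_eq_mul, mul_one]
            push_cast
            rfl
    rw [mul_add, mul_one]
    linarith
  · intro i hi hnone
    have h1 : ∑ s, w s ≤ 2 ^ Fintype.card (Pos U V m) * (3 / 4) ^ m := by
      have h2 : ∀ s, w s = (1 / 2 : ℝ) ^ (s ∩ aQ E v).card := by
        intro s
        rw [hws, if_neg hnone]
      rw [Finset.sum_congr rfl fun s _ => h2 s, h_HLF]
      apply mul_le_mul_of_nonneg_left _ (by positivity)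
      exact pow_le_pow_of_le_one (by norm_num) (by norm_num) (hQ i v hi)
    rw [mul_add]
    linarith

end Pool.Agent.BisRh
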