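import Pool.Agent.BisRh.Targets

/-!
# BisRh, SMW: the sum of the weights of the hub
-/

set_option autoImplicit false

namespace Pool.Agent.BisRh

open Finset Pool.Agent.BisTh Pool.Agent.BisRg

namespace SMW_

theorem sum_card_one (P : Type) [Fintype P] [DecidableEq P] :
    ∑ s : Finset P, (if s.card = 1 then (1 : ℝ) else 0) = Fintype.card P := by
  rw [Finset.sum_boole, Finset.univ_filter_card_eq, Finset.card_powersetCard, Finset.card_univ,
    Nat.choose_one_right]

theorem sum_disj (P : Type) [Fintype P] [DecidableEq P] (Q : Finset P) :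
    ∑ s : Finset P, (if (s ∩ Q).Nonempty then (0 : ℝ) else 1) =
      2 ^ (Fintype.card P - Q.card) := by
  have h1 : ∀ s : Finset P, (if (s ∩ Q).Nonempty then (0 : ℝ) else 1) =
      if s ⊆ Qᶜ then (1 : ℝ) else 0 := by
    intro s
    have h : (s ∩ Q).Nonempty ↔ ¬ s ⊆ Qᶜ := by
      rw [Finset.not_subset]
      constructor
      · rintro ⟨x, hx⟩
        rw [Finset.mem_inter] at hx
        exact ⟨x, hx.1, by simpa using hx.2⟩
      · rintro ⟨x, hx, hx2⟩
        refine ⟨x, Finset.mem_inter.mpr ⟨hx, by simpa using hx2⟩⟩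
    by_cases h2 : s ⊆ Qᶜ
    · rw [if_neg (by rw [h]; exact not_not.mpr h2), if_pos h2]
    · rw [if_pos (h.mpr h2), if_neg h2]
  rw [Finset.sum_congr rfl (fun s _ => h1 s), Finset.sum_boole]
  have h2 : (univ.filter fun s : Finset P => s ⊆ Qᶜ) = (Qᶜ).powerset := by
    ext s
    simp
  rw [h2, Finset.card_powerset, Finset.card_compl]
  push_cast
  rfl

theorem two_mul_le_pow (e : ℕ) (he : 2 ≤ e) : 2 * e ≤ 2 ^ e := by
  induction e, he using Nat.le_induction with
  | base => norm_num
  | succ e he ih =>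
    rw [pow_succ]
    omega

theorem num (d m : ℕ) (hm : 2 ≤ m) (hd : 2 * m ≤ d) : (d : ℝ) ≤ 2 ^ d * (1 / 2) ^ m := by
  obtain ⟨e, rfl⟩ : ∃ e, d = m + e := ⟨d - m, by omega⟩
  have h1 : m + e ≤ 2 ^ e := le_trans (by omega) (two_mul_le_pow e (by omega))
  have h2 : ((m + e : ℕ) : ℝ) ≤ 2 ^ e := by exact_mod_cast h1
  have h3 : (2 : ℝ) ^ (m + e) * (1 / 2) ^ m = 2 ^ e := by
    rw [pow_add, one_div, inv_pow]
    field_simp
  rw [h3]
  exact h2

theorem pow_sub_le (d m q : ℕ) (hq : m ≤ q) (hqd : q ≤ d) :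
    (2 : ℝ) ^ (d - q) ≤ 2 ^ d * (1 / 2) ^ m := by
  obtain ⟨e, rfl⟩ : ∃ e, d = m + e := ⟨d - m, by omega⟩
  have h3 : (2 : ℝ) ^ (m + e) * (1 / 2) ^ m = 2 ^ e := by
    rw [pow_add, one_div, inv_pow]
    field_simp
  rw [h3]
  exact pow_le_pow_right₀ (by norm_num) (by omega)

end SMW_

theorem p_SMW (h_CRD : T_CRD) : T_SMW := by
  intro U V _ _ _ _ m E A hm hU hA
  obtain ⟨-, -, hP, -, hd, -⟩ := h_CRD U V m E
  have hd := hd hU
  set d := Fintype.card (Pos U V m) with hddef
  set W : Finset (Pos U V m) → ℝ := fun s =>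
    ∏ i ∈ univ.filter (fun i : U => some (Sum.inl i) ∉ A),
      (if (s ∩ aP E i).Nonempty then (1 / 2 : ℝ) else 1) with hW
  have hW0 : ∀ s, 0 ≤ W s := fun s => Finset.prod_nonneg (fun i _ => by split_ifs <;> norm_num)
  have hW1 : ∀ s, W s ≤ 1 := fun s => Finset.prod_le_one
    (fun i _ => by split_ifs <;> norm_num) (fun i _ => by split_ifs <;> norm_num)
  -- the weight of one set
  have hphi : ∀ s : Finset (Pos U V m), phi E A none s ≤
      W s + (if s.card = 1 then (1 : ℝ) else 0) := by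
    intro s
    have h1 : 0 ≤ (if s.card = 1 then (1 : ℝ) else 0) := by split_ifs <;> norm_num
    have h2 : phi E A none s = if s = ∅ then 0 else
        (1 + (if s.card = 1 then (1 : ℝ) else 0)) * W s := by
      rw [phi, if_pos hA]
      rfl
    rw [h2]
    by_cases hs : s = ∅
    · rw [if_pos hs]
      exact add_nonneg (hW0 s) h1
    · rw [if_neg hs, add_mul, one_mul]
      have := mul_le_mul_of_nonneg_left (hW1 s) h1
      linarith
  have hWs : ∀ s : Finset (Pos U V m), W s ≤ (1 / 2) ^ out A +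
      ∑ i : U, (if (s ∩ aP E i).Nonempty then (0 : ℝ) else 1) := by
    intro s
    have hnn : ∀ i : U, 0 ≤ (if (s ∩ aP E i).Nonempty then (0 : ℝ) else 1) := fun i => by
      split_ifs <;> norm_num
    by_cases h : ∀ i : U, (s ∩ aP E i).Nonempty
    · have h1 : W s = (1 / 2) ^ out A := by
        change ∏ i ∈ univ.filter (fun i : U => some (Sum.inl i) ∉ A),
          (if (s ∩ aP E i).Nonempty then (1 / 2 : ℝ) else 1) = _
        rw [Finset.prod_congr rfl (fun i _ => if_pos (h i)), Finset.prod_const]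
        rfl
      rw [h1]
      exact le_add_of_nonneg_right (Finset.sum_nonneg (fun i _ => hnn i))
    · push Not at h
      obtain ⟨i, hi⟩ := h
      have h1 : (1 : ℝ) ≤ ∑ i : U, (if (s ∩ aP E i).Nonempty then (0 : ℝ) else 1) := by
        have h2 := Finset.single_le_sum
          (f := fun i : U => (if (s ∩ aP E i).Nonempty then (0 : ℝ) else 1))
          (fun i _ => hnn i) (Finset.mem_univ i)
        rw [if_neg (by rw [hi]; exact Finset.not_nonempty_empty)] at h2
        exact h2
      have h3 : (0 : ℝ) ≤ (1 / 2) ^ out A := by positivity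
      linarith [hW1 s]
  have hsum : ∑ s : Finset (Pos U V m), phi E A none s ≤
      ∑ s : Finset (Pos U V m), ((1 / 2) ^ out A +
        ∑ i : U, (if (s ∩ aP E i).Nonempty then (0 : ℝ) else 1) +
        (if s.card = 1 then (1 : ℝ) else 0)) :=
    Finset.sum_le_sum (fun s _ => (hphi s).trans (add_le_add (hWs s) le_rfl))
  refine hsum.trans ?_
  rw [Finset.sum_add_distrib, Finset.sum_add_distrib, Finset.sum_comm, SMW_.sum_card_one,
    Finset.sum_const, Finset.card_univ, Fintype.card_finset, nsmul_eq_mul, ← hddef]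
  have h4 : ∑ i : U, ∑ s : Finset (Pos U V m), (if (s ∩ aP E i).Nonempty then (0 : ℝ) else 1) ≤
      Fintype.card U * (2 ^ d * (1 / 2) ^ m) := by
    calc ∑ i : U, ∑ s : Finset (Pos U V m), (if (s ∩ aP E i).Nonempty then (0 : ℝ) else 1)
        ≤ ∑ _i : U, (2 : ℝ) ^ d * (1 / 2) ^ m := by
          refine Finset.sum_le_sum (fun i _ => ?_)
          rw [SMW_.sum_disj]
          exact SMW_.pow_sub_le d m _ (hP i) (Finset.card_le_univ _)
      _ = Fintype.card U * (2 ^ d * (1 / 2) ^ m) := by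
          rw [Finset.sum_const, Finset.card_univ, nsmul_eq_mul]
  have h5 := SMW_.num d m hm hd
  push_cast
  nlinarith [h4, h5]

end Pool.Agent.BisRh
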