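import Pool.Agent.BisRh.Targets

/-!
# ST4: the machine and the statement
-/

set_option autoImplicit false

namespace Pool.Agent.BisRh

open Finset Pool.Agent.PT Pool.Agent.BisTh Pool.Agent.BisRg

namespace ST4_

theorem rows_length (M B : Un) (R : List (List Bool)) :
    ∀ v ∈ rowsR M B R, v.length = (codeL M B R).length := by
  intro v hv
  unfold rowsR at hv
  obtain ⟨l, _, rfl⟩ := List.mem_map.1 hv
  rw [List.length_map]

theorem rowsOf_gR (M B : Un) (R : List (List Bool)) : rowsOf (gR M B R) = rowsR M B R :=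
  rowsOf_ofRows _ _ (rows_length M B R)

theorem enc_gR (M B : Un) (R : List (List Bool)) :
    encBip (gR M B R) = encRows (un (codeL M B R)) (rowsR M B R) := by
  rw [encBip_eq (gR M B R) (un (codeL M B R)) (un_length _), rowsOf_gR]

section

variable {γ : Type} [Dat γ] [hC : Fact Core]

theorem tm_rho (h_RPT : T_RPT) (h_CPT : T_CPT) (c : ℕ) :
    Nonempty (Turing.TM2ComputableInPolyTime encInput encBip (rho c)) := by
  have h1 : PolyF (fun x : In =>
      encRows (un (codeL (mH c x.1 x.2.1 x.2.2) x.2.1 (cst true x.2.1 :: x.2.2)))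
        (rowsR (mH c x.1 x.2.1 x.2.2) x.2.1 (cst true x.2.1 :: x.2.2))) :=
    encRows_pt (un_pt (h_CPT hC c)) (h_RPT hC c)
  have h2 := h1.comp (parse_pt (hC := hC))
  refine tm_of_polyF h2 encInput encBip _ fun x => ?_
  rw [parse_encInput]
  exact (enc_gR _ _ _).symm

end

end ST4_

open ST4_ in
theorem p_ST4 (h_CNT : T_CNT) (h_REG : T_REG) (h_RPT : T_RPT) (h_CPT : T_CPT) : T_ST4 := by
  have : Fact Core := ⟨core⟩
  intro c hc
  refine ⟨rho c, tm_rho h_RPT h_CPT c, fun H s => ?_⟩
  have hX' : ∀ u ∈ rowsOf H, u.length = (List.replicate H.b true).length := by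
    rw [List.length_replicate]
    exact rowsOf_length H
  have hXl : (rowsOf H).length = H.a := by simp [rowsOf]
  obtain ⟨M, hM⟩ : ∃ M : Un, M = mH c (List.replicate s true) (List.replicate H.b true)
    (rowsOf H) := ⟨_, rfl⟩
  obtain ⟨R, hR⟩ : ∃ R : List (List Bool),
    R = cst true (List.replicate H.b true) :: rowsOf H := ⟨_, rfl⟩
  have hρ : rho c (H, s) = gR M (List.replicate H.b true) R := by
    rw [hM, hR]
    rfl
  have hRl : R.length = H.a + 1 := by
    rw [hR, List.length_cons, hXl]
  have hR' : ∀ u ∈ R, u.length = (List.replicate H.b true).length := by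
    intro u hu
    rw [hR, List.mem_cons] at hu
    rcases hu with rfl | hu
    · exact cst_length _ _
    · exact hX' u hu
  have hMl : 1 ≤ M.length := by
    rw [hM]
    unfold mH
    rw [pw_length]
    refine Nat.one_le_pow _ _ ?_
    rw [rep_length]
    simp
  have h1 := h_REG M (List.replicate H.b true) R hR' (by omega) hMl
  have h2 := h_CNT c (List.replicate s true) (List.replicate H.b true) (rowsOf H) hc hX' _ rfl
  rw [← hM, ← hR, List.length_replicate, List.length_replicate, ← count_eq, hXl] at h2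
  rw [hρ]
  refine ⟨⟨_, h1.1, ?_⟩, h2.2.2, h2.1, h2.2.1⟩
  rw [h1.2, hRl, List.length_replicate]
  congr 1
  omega

end Pool.Agent.BisRh
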