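import Pool.Agent.BisRh.Targets

/-!
# SUM: left parts as functions of the cell
-/

set_option autoImplicit false

namespace Pool.Agent.BisRh

open Finset Pool.Agent.BisTh Pool.Agent.BisRg

namespace SUM_

/-- subsets of a product as functions -/
def eqv (C P : Type) [Fintype C] [Fintype P] [DecidableEq C] [DecidableEq P] :
    Finset (C × P) ≃ (C → Finset P) where
  toFun S x := univ.filter fun p => (x, p) ∈ S
  invFun F := univ.filter fun q => q.2 ∈ F q.1
  left_inv S := by
    ext ⟨x, p⟩
    simp
  right_inv F := by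
    funext x
    ext p
    simp

theorem mem_eqv (C P : Type) [Fintype C] [Fintype P] [DecidableEq C] [DecidableEq P]
    (S : Finset (C × P)) (x : C) (p : P) : p ∈ eqv C P S x ↔ (x, p) ∈ S := by
  simp [eqv]

end SUM_

open SUM_ in
theorem p_SUM : T_SUM := by
  intro U V _ _ _ _ m E y
  unfold cntR
  refine Fintype.sum_equiv (eqv (Cell U V) (Pos U V m)) _ _ fun S => ?_
  rw [Finset.prod_pow_eq_pow_sum]
  congr 1
  rw [Finset.card_filter, Fintype.sum_prod_type]
  refine Finset.sum_congr rfl fun x _ => ?_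
  unfold fr
  rw [Finset.card_filter]
  refine Finset.sum_congr rfl fun q _ => ?_
  have h : (∀ a ∈ S, adjG E y a (x, q) = false) ↔
      ∀ x', ∀ p ∈ eqv (Cell U V) (Pos U V m) S x', adjG E y (x', p) (x, q) = false := by
    constructor
    · intro h x' p hp
      exact h _ ((mem_eqv _ _ S x' p).1 hp)
    · rintro h ⟨x', p⟩ hp
      exact h x' p ((mem_eqv _ _ S x' p).2 hp)
  by_cases h1 : ∀ a ∈ S, adjG E y a (x, q) = false
  · rw [if_pos h1, if_pos (h.1 h1)]
  · rw [if_neg h1, if_neg (fun h2 => h1 (h.2 h2))]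

end Pool.Agent.BisRh
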