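import Pool.Agent.BisRh.Targets

/-!
# A universal left vertex adds `2 ^ a` independent pairs
-/

set_option autoImplicit false

namespace Pool.Agent.BisRh

open Finset Pool.Agent.BisTh Pool.Agent.BisRg

namespace UNI_

theorem cntR_eq (G : Bip) : cntR G.adj = G.count := by
  rw [count_eq_pairs, pairs, powerset_univ]
  unfold cntR
  refine sum_congr rfl fun S _ => ?_
  congr 2
  ext j
  simp only [mem_filter]

end UNI_

theorem p_UNI : T_UNI := by
  intro B X hX
  have h1 := UNI_.cntR_eq (ofRows B.length (cst true B :: X))
  have h2 := count_ofRows B.length (cst true B :: X) (fun u hu => by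
    rcases List.mem_cons.1 hu with rfl | h
    · exact cst_length _ _
    · exact hX u h)
  have h3 : (List.range B.length).filter (nadj (cst true B)) = [] := by
    rw [List.filter_eq_nil_iff]
    intro j hj
    rw [nadj_cst true B j (List.mem_range.1 hj)]
    simp
  rw [h2, cnt, h3, cnt_nil_right] at h1
  exact h1

end Pool.Agent.BisRh
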