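import Pool.Agent.BisRh.Targets

/-!
# Target VIO of the project BisRh (MP_29585b_lc)

A set of cells which is neither empty nor closed is violated somewhere.
-/

set_option autoImplicit false

namespace Pool.Agent.BisRh

open Finset Pool.Agent.BisTh Pool.Agent.BisRg

theorem p_VIO : T_VIO := by
  intro U V _ _ _ _ E A hne hclo
  by_contra hcon
  rw [not_or] at hcon
  obtain ⟨h1, h2⟩ := hcon
  have hedge : ∀ (i : U) (v : V ⊕ U), some (Sum.inl i) ∈ A → EE E i v = true →
      some (Sum.inr v) ∈ A := by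
    intro i v hi hv
    by_contra hn
    exact h1 ⟨i, v, hi, hv, hn⟩
  have hnone : none ∉ A := fun hA => hclo ⟨hA, hedge⟩
  have hright : ∀ v : V ⊕ U, some (Sum.inr v) ∉ A := fun v hv => h2 ⟨hnone, v, hv⟩
  obtain ⟨x, hx⟩ := Finset.nonempty_iff_ne_empty.mpr hne
  rcases x with _ | (i | v)
  · exact hnone hx
  · exact hright (Sum.inr i) (hedge i (Sum.inr i) hx (by simp [EE]))
  · exact hright v hx

end Pool.Agent.BisRh
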