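import Pool.Agent.BisRh.P_RGL
import Pool.Agent.BisRh.P_RGR
import Pool.Agent.BisRh.P_SUM
import Pool.Agent.BisRh.P_FRA
import Pool.Agent.BisRh.P_FRC
import Pool.Agent.BisRh.P_PTW
import Pool.Agent.BisRh.P_FAC
import Pool.Agent.BisRh.P_CRD
import Pool.Agent.BisRh.P_HLF
import Pool.Agent.BisRh.P_SMU
import Pool.Agent.BisRh.P_SMV
import Pool.Agent.BisRh.P_SMW
import Pool.Agent.BisRh.P_VIO
import Pool.Agent.BisRh.P_CLO
import Pool.Agent.BisRh.P_UPP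
import Pool.Agent.BisRh.P_LOW
import Pool.Agent.BisRh.P_NUM
import Pool.Agent.BisRh.P_ABS
import Pool.Agent.BisRh.P_CEQ
import Pool.Agent.BisRh.P_LNK
import Pool.Agent.BisRh.P_REG
import Pool.Agent.BisRh.P_UNI
import Pool.Agent.BisRh.P_CNT
import Pool.Agent.BisRh.P_RPT
import Pool.Agent.BisRh.P_CPT
import Pool.Agent.BisRh.P_ST4

/-!
# Assembly
-/

set_option autoImplicit false

namespace Pool.Agent.BisRh

open Pool.Agent.BisTh Pool.Agent.BisRg

theorem tPTW : T_PTW := p_PTW p_FRA p_FRC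
theorem tFAC : T_FAC := p_FAC p_SUM tPTW
theorem tSMU : T_SMU := p_SMU p_CRD p_HLF
theorem tSMV : T_SMV := p_SMV p_CRD p_HLF
theorem tSMW : T_SMW := p_SMW p_CRD
theorem tUPP : T_UPP := p_UPP tFAC tSMU tSMV tSMW p_VIO p_CLO
theorem tLOW : T_LOW := p_LOW p_SUM p_FRC p_CLO
theorem tABS : T_ABS := p_ABS tUPP tLOW p_NUM p_CRD
theorem tREG : T_REG := p_REG p_LNK p_RGL p_RGR
theorem tCNT : T_CNT := p_CNT p_LNK p_CEQ tABS p_UNI tREG

theorem statement4 : Statement4 := p_ST4 tCNT tREG p_RPT p_CPT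

end Pool.Agent.BisRh
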