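import Pool.Agent.BisRh.Targets

/-!
# BisRh, RGL: degrees of the left vertices of the regular graph
-/

set_option autoImplicit false

namespace Pool.Agent.BisRh

open Finset Pool.Agent.BisTh Pool.Agent.BisRg

namespace RGL_

/-- the vertices of the own cell, one of them exchanged if `c` holds -/
theorem key {C P : Type} [Fintype C] [Fintype P] [DecidableEq C] [DecidableEq P]
    (F : C × P → Bool) (x : C) (c : Prop) (q0 : P) (r0 : C × P) (hr : r0.1 ≠ x)
    (h : ∀ r, F r = true ↔ (r.1 = x ∧ ¬ (c ∧ r.2 = q0)) ∨ (c ∧ r = r0)) :
    (univ.filter fun r => F r = true).card = Fintype.card P := by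
  have hinj : Function.Injective fun q : P => (x, q) := fun a b hab => (Prod.mk.inj hab).2
  by_cases hc : c
  · have e : (univ.filter fun r => F r = true) =
        insert r0 ((univ.erase q0).image fun q : P => (x, q)) := by
      ext ⟨a, b⟩
      simp only [mem_filter, mem_univ, true_and, h, mem_insert, mem_image, mem_erase, ne_eq,
        and_true, Prod.mk.injEq, hc]
      constructor
      · rintro (⟨h1, h2⟩ | h1)
        · exact Or.inr ⟨b, h2, h1.symm, rfl⟩
        · exact Or.inl h1
      · rintro (h1 | ⟨q, h1, h2, h3⟩)
        · exact Or.inr h1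
        · subst h3
          exact Or.inl ⟨h2.symm, h1⟩
    rw [e, card_insert_of_notMem, card_image_of_injective _ hinj, card_erase_of_mem (mem_univ _),
      card_univ]
    · have : 0 < Fintype.card P := Fintype.card_pos_iff.2 ⟨q0⟩
      omega
    · rw [mem_image]
      rintro ⟨q, -, h2⟩
      exact hr (congrArg Prod.fst h2).symm
  · have e : (univ.filter fun r => F r = true) = univ.image fun q : P => (x, q) := by
      ext ⟨a, b⟩
      simp only [mem_filter, mem_univ, true_and, h, mem_image, Prod.mk.injEq, hc, false_and,
        not_false_eq_true, and_true, or_false]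
      constructor
      · intro h1
        exact ⟨b, h1.symm, rfl⟩
      · rintro ⟨q, h1, -⟩
        exact h1.symm
    rw [e, card_image_of_injective _ hinj, card_univ]

end RGL_

open RGL_ in
/-- **RGL** -/
theorem p_RGL : T_RGL := by
  intro U V _ _ _ _ m E y l
  obtain ⟨x, p⟩ := l
  rcases x with _ | (i | v)
  · refine key (fun r => adjG E y (none, p) r) none (act E p = true) p
      (some (Sum.inl p.1), y) (by simp) fun r => ?_
    obtain ⟨x', q⟩ := r
    rcases x' with _ | (i' | v')
    · simp only [adjG, Bool.not_eq_true', Bool.and_eq_false_iff, decide_eq_false_iff_not]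
      rw [@eq_comm _ p q]
      cases act E p <;> simp
    · simp [adjG]
      tauto
    · simp [adjG]
  · refine key (fun r => adjG E y (some (Sum.inl i), p) r) (some (Sum.inl i))
      (act E p = true ∧ p.1 = i) y (some (Sum.inr p.2.1), p) (by simp) fun r => ?_
    obtain ⟨x', q⟩ := r
    rcases x' with _ | (i' | v')
    · simp [adjG]
    · simp only [adjG, Bool.and_eq_true, decide_eq_true_eq, Bool.not_eq_true',
        Bool.and_eq_false_iff, decide_eq_false_iff_not]
      rw [@eq_comm _ i i']
      cases act E p <;> simp
      tauto
    · simp [adjG]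
      tauto
  · refine key (fun r => adjG E y (some (Sum.inr v), p) r) (some (Sum.inr v))
      (act E p = true ∧ p.2.1 = v) p (none, p) (by simp) fun r => ?_
    obtain ⟨x', q⟩ := r
    rcases x' with _ | (i' | v')
    · simp [adjG]
      tauto
    · simp [adjG]
    · simp only [adjG, Bool.and_eq_true, decide_eq_true_eq, Bool.not_eq_true',
        Bool.and_eq_false_iff, decide_eq_false_iff_not]
      rw [@eq_comm _ v v', @eq_comm _ p q]
      cases act E p <;> simp
      tauto

end Pool.Agent.BisRh
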