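import Pool.Agent.BisRh.Targets

/-!
# Regular bipartite graphs of large degree: the upper bound (MP_29585b_lc, block UPP)
-/

set_option autoImplicit false

namespace Pool.Agent.BisRh

open Finset Pool.Agent.BisTh Pool.Agent.BisRg

section

variable {U V : Type} [Fintype U] [Fintype V] [DecidableEq U] [DecidableEq V] {m : ℕ}

theorem UPP_sp_nonneg (E : U → V → Bool) (x : Cell U V) (s : Finset (Pos U V m)) :
    0 ≤ sp E x s := by
  unfold sp
  split <;> split_ifs <;> norm_num

theorem UPP_ws_nonneg (E : U → V → Bool) (A : Finset (Cell U V)) (x : Cell U V)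
    (s : Finset (Pos U V m)) : 0 ≤ ws E A x s := by
  unfold ws
  split
  · exact Finset.prod_nonneg fun _ _ => by positivity
  · split_ifs <;> positivity
  · exact Finset.prod_nonneg fun _ _ => by split_ifs <;> norm_num

theorem UPP_phi_nonneg (E : U → V → Bool) (A : Finset (Cell U V)) (x : Cell U V)
    (s : Finset (Pos U V m)) : 0 ≤ phi E A x s := by
  unfold phi
  have h1 := UPP_sp_nonneg E x s
  have h2 := UPP_ws_nonneg E A x s
  split_ifs
  · exact le_rfl
  · positivity
  · positivity
  · exact le_rfl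

theorem UPP_sum_out (E : U → V → Bool) (A : Finset (Cell U V)) (x : Cell U V) (hx : x ∉ A) :
    ∑ s : Finset (Pos U V m), phi E A x s = 2 ^ Fintype.card (Pos U V m) := by
  unfold phi
  simp only [hx, if_false]
  rw [Finset.sum_ite_eq' univ (∅ : Finset (Pos U V m))]
  simp

omit [DecidableEq U] [DecidableEq V] in
theorem UPP_card_cell : Fintype.card (Cell U V) = 2 * Fintype.card U + Fintype.card V + 1 := by
  unfold Cell
  rw [Fintype.card_option, Fintype.card_sum, Fintype.card_sum]
  ring

theorem UPP_prod {C : Type} [Fintype C] [DecidableEq C] (f : C → ℝ) (hf : ∀ x, 0 ≤ f x) (a b : ℝ)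
    (hb : 0 ≤ b) (hfb : ∀ x, f x ≤ b) (x0 : C) (h0 : f x0 ≤ a) :
    ∏ x, f x ≤ a * b ^ (Fintype.card C - 1) := by
  rw [← Finset.mul_prod_erase univ f (mem_univ x0)]
  have h1 : ∏ x ∈ univ.erase x0, f x ≤ b ^ (Fintype.card C - 1) := by
    calc ∏ x ∈ univ.erase x0, f x ≤ ∏ x ∈ univ.erase x0, b :=
          Finset.prod_le_prod (fun x _ => hf x) fun x _ => hfb x
      _ = b ^ (Fintype.card C - 1) := by
          rw [Finset.prod_const, Finset.card_erase_of_mem (mem_univ _), Finset.card_univ]
  exact mul_le_mul h0 h1 (Finset.prod_nonneg fun x _ => hf x) ((hf x0).trans h0)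

end

open Classical in
/-- UPP -/
theorem p_UPP (h_FAC : T_FAC) (h_SMU : T_SMU) (h_SMV : T_SMV) (h_SMW : T_SMW) (h_VIO : T_VIO)
    (h_CLO : T_CLO) : T_UPP := by
  intro U V _ _ _ _ m E y hm hU hV k D hk hD
  have hcard : Fintype.card (Cell U V) = k := by rw [UPP_card_cell, hk]
  have hk1 : (1 : ℝ) ≤ k := by
    have : 1 ≤ k := by omega
    exact_mod_cast this
  have h34 : ((1 : ℝ) / 2) ^ m ≤ (3 / 4) ^ m := pow_le_pow_left₀ (by norm_num) (by norm_num) m
  have h34p : (0 : ℝ) < (3 / 4) ^ m := by positivity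
  have h12p : (0 : ℝ) < (1 / 2) ^ m := by positivity
  have hD34 : ((3 : ℝ) / 4) ^ m ≤ D := by
    rw [hD]
    nlinarith
  have hD0 : 0 ≤ D := h34p.le.trans hD34
  have hD12 : ((1 : ℝ) / 2) ^ m ≤ D := h34.trans hD34
  set P : ℝ := 2 ^ Fintype.card (Pos U V m) with hP
  have hP0 : 0 < P := by positivity
  have hout1 : ∀ A : Finset (Cell U V), ((1 : ℝ) / 2) ^ out A ≤ 1 := fun A =>
    pow_le_one₀ (by norm_num) (by norm_num)
  -- the hub
  have hub : ∀ A : Finset (Cell U V), none ∈ A →
      ∑ s : Finset (Pos U V m), phi E A none s ≤ P * ((1 / 2) ^ out A + D) := by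
    intro A hA
    refine (h_SMW U V m E A hm hU hA).trans ?_
    apply mul_le_mul_of_nonneg_left _ hP0.le
    have h1 : ((Fintype.card U : ℝ) + 1) * (1 / 2) ^ m ≤ D := by
      rw [hD]
      have h2 : ((Fintype.card U : ℝ) + 1) ≤ k := by
        have : Fintype.card U + 1 ≤ k := by omega
        exact_mod_cast this
      calc ((Fintype.card U : ℝ) + 1) * (1 / 2) ^ m ≤ k * (1 / 2) ^ m :=
            mul_le_mul_of_nonneg_right h2 h12p.le
        _ ≤ k * (3 / 4) ^ m := mul_le_mul_of_nonneg_left h34 (by linarith)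
    linarith
  -- every cell
  have gen : ∀ (A : Finset (Cell U V)) (x : Cell U V),
      ∑ s : Finset (Pos U V m), phi E A x s ≤ P * (1 + D) := by
    intro A x
    by_cases hx : x ∈ A
    · match x, hx with
      | some (.inl i), hx =>
        refine (h_SMU U V m E A i hx).1.trans ?_
        apply mul_le_mul_of_nonneg_left _ hP0.le
        linarith
      | some (.inr v), hx =>
        refine (h_SMV U V m E A v hm hU hx).1.trans ?_
        apply mul_le_mul_of_nonneg_left _ hP0.le
        linarith
      | none, hx =>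
        refine (hub A hx).trans ?_
        apply mul_le_mul_of_nonneg_left _ hP0.le
        linarith [hout1 A]
    · rw [UPP_sum_out E A x hx]
      nlinarith
  have nn : ∀ (A : Finset (Cell U V)) (x : Cell U V),
      0 ≤ ∑ s : Finset (Pos U V m), phi E A x s := fun A x =>
    Finset.sum_nonneg fun s _ => UPP_phi_nonneg E A x s
  have hPk : (2 : ℝ) ^ (Fintype.card (Pos U V m) * k) = P ^ k := by rw [hP, pow_mul]
  -- one special cell
  have spec : ∀ (A : Finset (Cell U V)) (x : Cell U V) (a : ℝ), 0 ≤ a →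
      ∑ s : Finset (Pos U V m), phi E A x s ≤ P * a →
      ∏ x, ∑ s : Finset (Pos U V m), phi E A x s ≤ P ^ k * (a * (1 + D) ^ k) := by
    intro A x a ha h
    have h1 := UPP_prod (fun x => ∑ s : Finset (Pos U V m), phi E A x s) (nn A) (P * a)
      (P * (1 + D)) (by positivity) (gen A) x h
    rw [hcard] at h1
    refine h1.trans ?_
    obtain ⟨j, hj⟩ : ∃ j, k = j + 1 := ⟨k - 1, by omega⟩
    rw [hj, Nat.add_sub_cancel, mul_pow]
    have h2 : (1 + D) ^ j ≤ (1 + D) ^ (j + 1) := pow_le_pow_right₀ (by linarith) (by omega)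
    calc P * a * (P ^ j * (1 + D) ^ j) = P ^ (j + 1) * (a * (1 + D) ^ j) := by ring
      _ ≤ P ^ (j + 1) * (a * (1 + D) ^ (j + 1)) := by
          apply mul_le_mul_of_nonneg_left _ (by positivity)
          exact mul_le_mul_of_nonneg_left h2 ha
  have hDk : (0 : ℝ) ≤ (1 + D) ^ k := by positivity
  -- all `A`
  have main : ∀ A : Finset (Cell U V), ∏ x, ∑ s : Finset (Pos U V m), phi E A x s ≤
      P ^ k * ((if A = ∅ then 1 else 0) +
        (if Clo E A then (1 + D) ^ k * ((1 / 2) ^ out A + D) else 0) +
          2 * D * (1 + D) ^ k) := by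
    intro A
    have hlast : 0 ≤ 2 * D * (1 + D) ^ k := by positivity
    have hclo : 0 ≤ (1 + D) ^ k * (((1 : ℝ) / 2) ^ out A + D) := by positivity
    by_cases h0 : A = ∅
    · subst h0
      have h1 : ∏ x, ∑ s : Finset (Pos U V m), phi E (∅ : Finset (Cell U V)) x s = P ^ k := by
        rw [Finset.prod_congr rfl fun x _ => UPP_sum_out E ∅ x (Finset.notMem_empty x),
          Finset.prod_const, Finset.card_univ, hcard]
      rw [h1, if_pos rfl]
      have h2 : (0 : ℝ) ≤ (if Clo E (∅ : Finset (Cell U V)) then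
          (1 + D) ^ k * ((1 / 2) ^ out (∅ : Finset (Cell U V)) + D) else 0) := by
        split_ifs
        · exact hclo
        · exact le_rfl
      have h3 : 0 < P ^ k := by positivity
      nlinarith
    · rw [if_neg h0, zero_add]
      by_cases hc : Clo E A
      · rw [if_pos hc]
        have h1 := spec A none ((1 / 2) ^ out A + D) (by positivity) (hub A hc.1)
        refine h1.trans ?_
        apply mul_le_mul_of_nonneg_left _ (by positivity)
        linarith
      · rw [if_neg hc, zero_add]
        have h2D : ((3 : ℝ) / 4) ^ m + (1 / 2) ^ m ≤ 2 * D := by linarith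
        rcases h_VIO U V E A h0 hc with ⟨i, v, hi, hE, hv⟩ | ⟨hn, v, hv⟩
        · apply spec A (some (.inl i)) (2 * D) (by positivity)
          refine ((h_SMU U V m E A i hi).2 v hE hv).trans ?_
          exact mul_le_mul_of_nonneg_left h2D hP0.le
        · apply spec A (some (.inr v)) (2 * D) (by positivity)
          obtain ⟨i, hi⟩ : ∃ i, EE E i v = true := by
            rcases v with j | i
            · exact hV j
            · exact ⟨i, by simp [EE]⟩
          refine ((h_SMV U V m E A v hm hU hv).2 i hi hn).trans ?_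
          exact mul_le_mul_of_nonneg_left h2D hP0.le
  refine (h_FAC U V m E y).trans ((Finset.sum_le_sum fun A _ => main A).trans ?_)
  rw [← Finset.mul_sum, hPk]
  apply mul_le_mul_of_nonneg_left _ (by positivity)
  rw [Finset.sum_add_distrib, Finset.sum_add_distrib, Finset.sum_ite_eq' univ (∅ : Finset _),
    if_pos (mem_univ _), Finset.sum_const, Finset.card_univ, Fintype.card_finset, hcard,
    ← Finset.sum_filter, ← Finset.mul_sum, Finset.sum_add_distrib, Finset.sum_const,
    h_CLO U V E, nsmul_eq_mul, nsmul_eq_mul]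
  have h1 : (((univ.filter fun A : Finset (Cell U V) => Clo E A).card : ℕ) : ℝ) ≤ 2 ^ k := by
    have h2 : (univ.filter fun A : Finset (Cell U V) => Clo E A).card ≤ 2 ^ k := by
      refine (Finset.card_filter_le _ _).trans ?_
      rw [Finset.card_univ, Fintype.card_finset, hcard]
    exact_mod_cast h2
  push_cast
  have h3 : (1 + D) ^ k * ((cntR E : ℝ) +
      ((univ.filter fun A : Finset (Cell U V) => Clo E A).card : ℝ) * D) ≤
      (1 + D) ^ k * (cntR E + 2 ^ k * D) := by
    apply mul_le_mul_of_nonneg_left _ hDk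
    have := mul_le_mul_of_nonneg_right h1 hD0
    linarith
  linarith

end Pool.Agent.BisRh
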