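import Pool.Agent.BisRh.Defs

/-!
# Targets of the project BisRh (MP_29585b_lc, row 5268)
-/

set_option autoImplicit false

namespace Pool.Agent.BisRh

open Finset Pool.Agent.PT Pool.Agent.BisTh Pool.Agent.BisRg

/-- RGL. Degrees of the left vertices. In each case exactly the right vertices of the own cell,
with one exchanged if the position is active: `(u, y)` for `(v(p), p)`; `(v, p)` for `(none, p)`;
`(none, p)` for `(u(p), y)`. (Count by cells: `Fintype.sum_prod_type`, `Fintype.sum_option`,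
`Fintype.sum_sum_type`, or a bijection with the positions.) -/
def T_RGL : Prop :=
  ∀ (U V : Type) [Fintype U] [Fintype V] [DecidableEq U] [DecidableEq V] (m : ℕ)
    (E : U → V → Bool) (y : Pos U V m) (l : Cell U V × Pos U V m),
    (univ.filter fun r => adjG E y l r = true).card = Fintype.card (Pos U V m)

/-- RGR. Degrees of the right vertices. Cells `inr v` and `none` as in RGL; the vertex `(u, y)`
loses the left vertices `(u, p)` and gains `(none, p)` for all active `p` with `p.1 = u`. -/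
def T_RGR : Prop :=
  ∀ (U V : Type) [Fintype U] [Fintype V] [DecidableEq U] [DecidableEq V] (m : ℕ)
    (E : U → V → Bool) (y : Pos U V m) (r : Cell U V × Pos U V m),
    (univ.filter fun l => adjG E y l r = true).card = Fintype.card (Pos U V m)

/-- SUM. Left parts as functions of the cell (`Finset (C × P) ≃ (C → Finset P)`), the number of
free right vertices is the sum over the cells. -/
def T_SUM : Prop :=
  ∀ (U V : Type) [Fintype U] [Fintype V] [DecidableEq U] [DecidableEq V] (m : ℕ)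
    (E : U → V → Bool) (y : Pos U V m),
    cntR (adjG E y) = ∑ S : Cell U V → Finset (Pos U V m), ∏ x, 2 ^ fr E y S x

/-- FRA. A cell met by `S`: a free `q` in this cell satisfies `adjG E y (x, p) (x, q) = false` for
all `p ∈ S x`, so `q = y` and `S x ⊆ aP E i` for `x = some (inl i)`, and `S x = {q}` otherwise. -/
def T_FRA : Prop :=
  ∀ (U V : Type) [Fintype U] [Fintype V] [DecidableEq U] [DecidableEq V] (m : ℕ)
    (E : U → V → Bool) (y : Pos U V m) (S : Cell U V → Finset (Pos U V m)) (x : Cell U V),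
    (S x).Nonempty → (2 : ℝ) ^ fr E y S x ≤ 1 + sp E x (S x)

/-- FRC. Cells not met by `S`. `inr v`: the right vertices that are not free are those in the sets
`S (inl i) ∩ aPQ E i v`, disjoint for distinct `i`; `none`: those in `S (inr v) ∩ aQ E v`, disjoint
for distinct `v`; `inl i`: only `y`, if `S none` meets `aP E i`. -/
def T_FRC : Prop :=
  ∀ (U V : Type) [Fintype U] [Fintype V] [DecidableEq U] [DecidableEq V] (m : ℕ)
    (E : U → V → Bool) (y : Pos U V m) (S : Cell U V → Finset (Pos U V m)),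
    (∀ v, S (some (.inr v)) = ∅ → fr E y S (some (.inr v)) +
      ∑ i : U, (S (some (.inl i)) ∩ aPQ E i v).card = Fintype.card (Pos U V m)) ∧
    (S none = ∅ → fr E y S none +
      ∑ v : V ⊕ U, (S (some (.inr v)) ∩ aQ E v).card = Fintype.card (Pos U V m)) ∧
    ∀ i, S (some (.inl i)) = ∅ → fr E y S (some (.inl i)) +
      (if (S none ∩ aP E i).Nonempty then 1 else 0) = Fintype.card (Pos U V m)

/-- PTW. Pointwise bound. By FRA and FRC the left side is at most
`∏_{x ∈ A} (1 + sp) * ∏_{x ∉ A} 2 ^ d * ∏_{v ∉ A} ∏_i (1/2) ^ |S_i ∩ aPQ i v|` times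
`∏_v (1/2) ^ |S_v ∩ aQ v|` if `none ∉ A`, times `∏_{i ∉ A}` (`1/2` if `S none` meets `aP i`);
regroup by the cell whose set occurs (exchange the products over `v ∉ A` and `i`; for `i ∉ A` the
set `S_i` is empty). Write the products over `Cell` with `Fintype.prod_option`,
`Fintype.prod_sum_type`. -/
def T_PTW : Prop :=
  ∀ (U V : Type) [Fintype U] [Fintype V] [DecidableEq U] [DecidableEq V] (m : ℕ)
    (E : U → V → Bool) (y : Pos U V m) (S : Cell U V → Finset (Pos U V m)),
    ∏ x, (2 : ℝ) ^ fr E y S x ≤ ∏ x, phi E (supp S) x (S x)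

/-- FAC. `∏ x, phi E (supp S) x (S x) ≤ ∑ A, ∏ x, phi E A x (S x)` (all terms are nonnegative),
exchange the sums and use `Finset.prod_univ_sum` (`Fintype.piFinset_univ`). -/
def T_FAC : Prop :=
  ∀ (U V : Type) [Fintype U] [Fintype V] [DecidableEq U] [DecidableEq V] (m : ℕ)
    (E : U → V → Bool) (y : Pos U V m),
    (cntR (adjG E y) : ℝ) ≤
      ∑ A : Finset (Cell U V), ∏ x, ∑ s : Finset (Pos U V m), phi E A x s

/-- CRD. Numbers of positions: `|aPQ i v| = m` for an edge, `|aP i| + m ≤ d`,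
`m ≤ |aQ v|` if `v` has a neighbour, `m ≤ |aP i|` (the leaf of `i`), `2 m ≤ d` if `U` is not
empty, `d = 2 |U| (|V| + |U|) m`. -/
def T_CRD : Prop :=
  ∀ (U V : Type) [Fintype U] [Fintype V] [DecidableEq U] [DecidableEq V] (m : ℕ)
    (E : U → V → Bool),
    (∀ i v, EE E i v = true → (aPQ (m := m) E i v).card = m) ∧
    (∀ i, (aP (m := m) E i).card + m ≤ Fintype.card (Pos U V m)) ∧
    (∀ i, m ≤ (aP (m := m) E i).card) ∧
    (∀ i v, EE E i v = true → m ≤ (aQ (m := m) E v).card) ∧
    (Nonempty U → 2 * m ≤ Fintype.card (Pos U V m)) ∧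
    Fintype.card (Pos U V m) = 2 * (Fintype.card U * ((Fintype.card V + Fintype.card U) * m))

/-- HLF. Sum over all subsets: `∑_s ∏_v (1/2) ^ |s ∩ Q v| = 2 ^ |P| (3/4) ^ (∑_v |Q v|)` for
disjoint sets `Q v`, here as an upper bound by one of them. `(1/2) ^ |s ∩ Q| = ∏_{p ∈ s} c p` with
`c p = 1/2` on `Q`, `1` elsewhere, and `∑_s ∏_{p ∈ s} c p = ∏_p (1 + c p)`
(`Finset.prod_one_add` / `Finset.prod_add`). -/
def T_HLF : Prop :=
  ∀ (P : Type) [Fintype P] [DecidableEq P] (Q : Finset P),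
    ∑ s : Finset P, (1 / 2 : ℝ) ^ (s ∩ Q).card = 2 ^ Fintype.card P * (3 / 4) ^ Q.card

/-- SMU. Cells `inl i` in `A`. `(1 + sp) ws ≤ ws + sp`; `∑_s sp = 2 ^ |aP i| ≤ 2 ^ d (1/2) ^ m`
(CRD); `ws ≤ (1/2) ^ |s ∩ aPQ i v|` for any `v` outside `A` (the other factors are at most `1`) and
HLF, `|aPQ i v| = m`. -/
def T_SMU : Prop :=
  ∀ (U V : Type) [Fintype U] [Fintype V] [DecidableEq U] [DecidableEq V] (m : ℕ)
    (E : U → V → Bool) (A : Finset (Cell U V)) (i : U), some (.inl i) ∈ A →
    (∑ s : Finset (Pos U V m), phi E A (some (.inl i)) s ≤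
      2 ^ Fintype.card (Pos U V m) * (1 + (1 / 2) ^ m)) ∧
    ∀ v, EE E i v = true → some (.inr v) ∉ A →
      ∑ s : Finset (Pos U V m), phi E A (some (.inl i)) s ≤
        2 ^ Fintype.card (Pos U V m) * ((3 / 4) ^ m + (1 / 2) ^ m)

/-- SMV. Cells `inr v` in `A`. `∑_s sp = d ≤ 2 ^ d (1/2) ^ m` for `m ≥ 2` and `U` not empty
(`d ≥ 2 m ≥ 4`, so `d ≤ 2 ^ (d/2)`, that is `d ^ 2 ≤ 2 ^ d`, and `2 ^ (2 m) ≤ 2 ^ d`). -/
def T_SMV : Prop :=
  ∀ (U V : Type) [Fintype U] [Fintype V] [DecidableEq U] [DecidableEq V] (m : ℕ)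
    (E : U → V → Bool) (A : Finset (Cell U V)) (v : V ⊕ U), 2 ≤ m → Nonempty U →
    some (.inr v) ∈ A →
    (∑ s : Finset (Pos U V m), phi E A (some (.inr v)) s ≤
      2 ^ Fintype.card (Pos U V m) * (1 + (1 / 2) ^ m)) ∧
    ∀ i, EE E i v = true → none ∉ A →
      ∑ s : Finset (Pos U V m), phi E A (some (.inr v)) s ≤
        2 ^ Fintype.card (Pos U V m) * ((3 / 4) ^ m + (1 / 2) ^ m)

/-- SMW. The hub in `A`. If `s` meets `aP i` for all `i` then `ws = (1/2) ^ out A`; the number of
other `s` is at most `∑_i 2 ^ (d - |aP i|) ≤ |U| 2 ^ (d - m)`, where `ws ≤ 1`; `∑_s sp = d`. -/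
def T_SMW : Prop :=
  ∀ (U V : Type) [Fintype U] [Fintype V] [DecidableEq U] [DecidableEq V] (m : ℕ)
    (E : U → V → Bool) (A : Finset (Cell U V)), 2 ≤ m → Nonempty U → none ∈ A →
    ∑ s : Finset (Pos U V m), phi E A none s ≤
      2 ^ Fintype.card (Pos U V m) * ((1 / 2) ^ out A + (Fintype.card U + 1) * (1 / 2) ^ m)

/-- VIO. A set of cells which is neither empty nor closed is violated somewhere (use the leaf of
`i` if only a cell `inl i` is in `A` and the hub is not). -/
def T_VIO : Prop :=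
  ∀ (U V : Type) [Fintype U] [Fintype V] [DecidableEq U] [DecidableEq V]
    (E : U → V → Bool) (A : Finset (Cell U V)), A ≠ ∅ → ¬ Clo E A →
    (∃ i v, some (.inl i) ∈ A ∧ EE E i v = true ∧ some (.inr v) ∉ A) ∨
    (none ∉ A ∧ ∃ v, some (.inr v) ∈ A)

open Classical in
/-- CLO. Sum over the closed sets. A closed set is given by `S = A ∩ U` and a set of vertices
`v : V ⊕ U` containing all neighbours of `S`: for `v = inr i` this means `i ∈ S → v ∈ A`. For fixed
`S` the number of choices is `2 ^ |{j | no neighbour in S}| * 2 ^ |U - S|`. (`Finset (Option (U ⊕`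
`(V ⊕ U)))` is a product of `Finset U`, `Finset V`, `Finset U` and a bit.) -/
def T_CLO : Prop :=
  ∀ (U V : Type) [Fintype U] [Fintype V] [DecidableEq U] [DecidableEq V] (E : U → V → Bool),
    ∑ A ∈ univ.filter (fun A : Finset (Cell U V) => Clo E A), (1 / 2 : ℝ) ^ out A = cntR E

/-- UPP. Upper bound, `k = |Cell| = 2 |U| + |V| + 1`, `D = k (3/4) ^ m`. Cells outside `A` give
`2 ^ d`; `A = ∅` gives `2 ^ (d k)`; for a violated `A` (VIO) one factor is at most `2 ^ d (2 D)` and
the others at most `2 ^ d (1 + D)` (every right vertex has a neighbour: hypothesis, and `i` is a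
neighbour of its leaf); for closed `A` the hub gives `2 ^ d ((1/2) ^ out A + D)`. Sum: CLO; at most
`2 ^ k` sets `A`. -/
def T_UPP : Prop :=
  ∀ (U V : Type) [Fintype U] [Fintype V] [DecidableEq U] [DecidableEq V] (m : ℕ)
    (E : U → V → Bool) (y : Pos U V m), 2 ≤ m → Nonempty U → (∀ v, ∃ i, E i v = true) →
    ∀ (k : ℕ) (D : ℝ),
    k = 2 * Fintype.card U + Fintype.card V + 1 → D = k * (3 / 4) ^ m →
    (cntR (adjG E y) : ℝ) ≤ 2 ^ (Fintype.card (Pos U V m) * k) *
      (1 + (1 + D) ^ k * (cntR E + 2 ^ k * D) + 2 ^ k * (2 * D) * (1 + D) ^ k)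

/-- LOW. Lower bound. In SUM keep the `S` for which `A = supp S` is empty (one, contributing
`2 ^ (d k)`) or closed. For closed `A` and `supp S = A`: the free vertices outside `A` number at
least `d (k - |A|) - out A` (FRC: for `v ∉ A` no `i ∈ A` is a neighbour, so `aPQ E i v = ∅`), and
there are `(2 ^ d - 1) ^ |A|` such `S` (`Fintype.piFinset`); `(1 - 2 ^ (-d)) ^ |A| ≥ 1 - k 2 ^ (-d)`
(`one_add_mul_le_pow`). Sum over closed `A`: CLO. -/
def T_LOW : Prop :=
  ∀ (U V : Type) [Fintype U] [Fintype V] [DecidableEq U] [DecidableEq V] (m : ℕ)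
    (E : U → V → Bool) (y : Pos U V m) (k : ℕ), k = 2 * Fintype.card U + Fintype.card V + 1 →
    (2 : ℝ) ^ (Fintype.card (Pos U V m) * k) * (1 + cntR E) *
      (1 - k / 2 ^ Fintype.card (Pos U V m)) ≤ cntR (adjG E y)

/-- NUM. Numerical estimates: `(3/4) ^ m ≤ (1/4) ^ (8 (k + s + 1))` as `(3/4) ^ 5 ≤ 1/4`;
`k ≤ 2 ^ k`; `(1 + D) ^ k ≤ 1 + 2 ^ k D` for `0 ≤ D ≤ 1` (or `k D ≤ 1`: `≤ 1 + 2 k D`). -/
def T_NUM : Prop :=
  ∀ (k s m d : ℕ) (z D : ℝ), 1 ≤ k → 40 * (k + s + 1) ≤ m → 2 * m ≤ d → 0 ≤ z → z ≤ 2 ^ k →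
    D = k * (3 / 4) ^ m →
    1 + (1 + D) ^ k * (z + 2 ^ k * D) + 2 ^ k * (2 * D) * (1 + D) ^ k ≤ z + 1 + (1 / 2) ^ s ∧
    z + 1 - (1 / 2) ^ s ≤ (1 + z) * (1 - k / 2 ^ d)

/-- ABS. The estimate for the abstract graph, from UPP, LOW, NUM, CRD, `z = cntR E ≤`
`2 ^ (|U| + |V|) ≤ 2 ^ k`. -/
def T_ABS : Prop :=
  ∀ (U V : Type) [Fintype U] [Fintype V] [DecidableEq U] [DecidableEq V] (m : ℕ)
    (E : U → V → Bool) (y : Pos U V m) (k s n : ℕ), Nonempty U → (∀ v, ∃ i, E i v = true) →
    k = 2 * Fintype.card U + Fintype.card V + 1 → 40 * (k + s + 1) ≤ m →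
    n = Fintype.card (Pos U V m) * k →
    2 ^ s * (cntR (adjG E y) - 2 ^ n * (cntR E + 1)) ≤ 2 ^ n ∧
    2 ^ s * (2 ^ n * (cntR E + 1) - cntR (adjG E y)) ≤ 2 ^ n

/-- CEQ. `cntR` is invariant under bijections, and `count` is `cntR` (`count_eq_pairs`). -/
def T_CEQ : Prop :=
  (∀ (α β α' β' : Type) [Fintype α] [Fintype β] [Fintype α'] [Fintype β'] (e : α' ≃ α)
    (f : β' ≃ β) (adj : α → β → Bool), cntR (fun i j => adj (e i) (f j)) = cntR adj) ∧
  ∀ G : Bip, G.count = cntR G.adj

/-- LNK. The concrete graph is the abstract one. `R` has `R.length ≥ 1` rows of length `B.length`,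
`M` is not empty. The code map `Cell × Pos → Code` (`some (inl i) ↦ (0, 0, i)`,
`some (inr (inl j)) ↦ (1, 0, j)`, `some (inr (inr i)) ↦ (1, 1, i)`, `none ↦ (2, 0, 0)`; positions
`(i, inl j, t, e) ↦ (i, (0, j), t, e)`, `(i, inr i', t, e) ↦ (i, (1, i'), t, e)`) is injective, its
image is `codeL M B R`, which has no duplicates; `adjN R (code l) (code r) = adjG E y l r` for
`E = (ofRows B.length R).adj`, `y` with code `yN`. (Enumerate the abstract type in the same order
by a list `L` with `codeL = L.map code`, `L.Nodup`, all elements in `L`; then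
`List.Nodup.getEquivOfForallMemList`.) -/
def T_LNK : Prop :=
  ∀ (M B : Un) (R : List (List Bool)), (∀ u ∈ R, u.length = B.length) → 1 ≤ R.length →
    1 ≤ M.length →
    ∃ (y : Pos (Fin R.length) (Fin B.length) M.length)
      (e : Fin (gR M B R).a ≃
        Cell (Fin R.length) (Fin B.length) × Pos (Fin R.length) (Fin B.length) M.length)
      (f : Fin (gR M B R).b ≃
        Cell (Fin R.length) (Fin B.length) × Pos (Fin R.length) (Fin B.length) M.length),
      ∀ i j, (gR M B R).adj i j = adjG (fun (i : Fin R.length) (j : Fin B.length) =>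
        (R[i.val]).getD j.val false) y (e i) (f j)

/-- REG. The concrete graph is regular (LNK, RGL, RGR; `degL`, `degR` through the bijections), and
its size: `|Cell × Pos| = (2 |R| + |B| + 1) * d`. -/
def T_REG : Prop :=
  ∀ (M B : Un) (R : List (List Bool)), (∀ u ∈ R, u.length = B.length) → 1 ≤ R.length →
    1 ≤ M.length →
    NearRegular (gR M B R) (2 * (R.length * ((B.length + R.length) * M.length))) 0 ∧
    (gR M B R).a = (2 * R.length + B.length + 1) *
      (2 * (R.length * ((B.length + R.length) * M.length)))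

/-- UNI. Adding a universal left vertex adds `2 ^ a` independent sets: `count_ofRows` and the
definition of `cnt`. -/
def T_UNI : Prop :=
  ∀ (B : Un) (X : List (List Bool)), (∀ u ∈ X, u.length = B.length) →
    cntR (fun (i : Fin (cst true B :: X).length) (j : Fin B.length) =>
      ((cst true B :: X)[i.val]).getD j.val false) = cnt X (List.range B.length) + 2 ^ X.length

/-- CNT. The estimate for the concrete graph: LNK, CEQ, ABS, UNI, REG with
`R = cst true B :: X`, `M = mH c T B X`, `c ≥ 1`, `s = T.length`. -/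
def T_CNT : Prop :=
  ∀ (c : ℕ) (T B : Un) (X : List (List Bool)), 1 ≤ c → (∀ u ∈ X, u.length = B.length) →
    ∀ n : ℕ, n = (gR (mH c T B X) B (cst true B :: X)).a →
    2 ^ T.length * ((gR (mH c T B X) B (cst true B :: X)).count -
      2 ^ n * (cnt X (List.range B.length) + 2 ^ X.length + 1)) ≤ 2 ^ n ∧
    2 ^ T.length * (2 ^ n * (cnt X (List.range B.length) + 2 ^ X.length + 1) -
      (gR (mH c T B X) B (cst true B :: X)).count) ≤ 2 ^ n ∧
    (2 * X.length + B.length + 3) ^ c ≤ n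

/-- RPT. The rows are computed in polynomial time (`PolyF.map`, `PolyF.flatMap`,
`PolyF.range_length`, `PolyF.eq` for decidable equality of tuples, `getD`, `cond`). -/
def T_RPT : Prop :=
  Fact Core → ∀ c : ℕ, PolyF (fun x : In =>
    rowsR (mH c x.1 x.2.1 x.2.2) x.2.1 (cst true x.2.1 :: x.2.2))

/-- CPT. The list of codes (needed for the number of right vertices in `encBip`). -/
def T_CPT : Prop :=
  Fact Core → ∀ c : ℕ, PolyF (fun x : In =>
    codeL (mH c x.1 x.2.1 x.2.2) x.2.1 (cst true x.2.1 :: x.2.2))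

/-- ST4. As `tm_rhoB`, `tm_rhoC` and `statementB` in BisTh/Main.lean: `encBip_eq`,
`rowsOf_ofRows` (all rows of `rowsR` have length `(codeL M B R).length`), with `rho c`. -/
def T_ST4 : Prop := Statement4

end Pool.Agent.BisRh
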